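import Mathlib
import Pool.Agent.H90.Shot.Cyc

/-!
# Fingerprints of darts: deterministic part
-/

set_option autoImplicit false

open Finset Classical

namespace Pool.Agent.H82.Shot

open Pool.Agent.H90.Shot

variable {V : Type*} [Fintype V]

/-- the vertices at distance exactly two from `w` -/
noncomputable def S2 (G : SimpleGraph V) (w : V) : Finset V :=
  univ.filter fun y => y ≠ w ∧ ¬ G.Adj w y ∧ ∃ x, G.Adj w x ∧ G.Adj x y

/-- number of neighbours of `a` at distance exactly two from `w` -/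
noncomputable def kk (G : SimpleGraph V) (w a : V) : ℕ := ((S2 G w).filter fun y => G.Adj a y).card

/-- the fingerprint of the dart `(v, w)` -/
noncomputable def hist (G : SimpleGraph V) (v w : V) (i : ℕ) : ℕ :=
  (univ.filter fun a => G.Adj v a ∧ a ≠ w ∧ ¬ G.Adj w a ∧ kk G w a = i).card

theorem mem_S2 {G : SimpleGraph V} {w y : V} :
    y ∈ S2 G w ↔ y ≠ w ∧ ¬ G.Adj w y ∧ ∃ x, G.Adj w x ∧ G.Adj x y := by
  unfold S2
  simp

/-- a bijection between sets of vertices which preserves adjacency -/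
structure LI (H G : SimpleGraph V) (B B' : Set V) (f : V → V) : Prop where
  bij : Set.BijOn f B B'
  adj : ∀ a ∈ B, ∀ b ∈ B, (H.Adj a b ↔ G.Adj (f a) (f b))

theorem LI.mem_S2 {H G : SimpleGraph V} {B B' : Set V} {f : V → V} (L : LI H G B B' f) {w y : V}
    (hw : w ∈ B) (hy : y ∈ B) (h1 : ∀ x, H.Adj w x → x ∈ B) (h1' : ∀ x, G.Adj (f w) x → x ∈ B') :
    y ∈ S2 H w ↔ f y ∈ S2 G (f w) := by
  rw [Pool.Agent.H82.Shot.mem_S2, Pool.Agent.H82.Shot.mem_S2]
  constructor
  · rintro ⟨a, b, x, hx1, hx2⟩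
    refine ⟨fun h => a (L.bij.injOn hy hw h), fun h => b ((L.adj w hw y hy).mpr h), f x,
      (L.adj w hw x (h1 x hx1)).mp hx1, (L.adj x (h1 x hx1) y hy).mp hx2⟩
  · rintro ⟨a, b, x', hx1, hx2⟩
    obtain ⟨x, hx, rfl⟩ := L.bij.surjOn (h1' x' hx1)
    exact ⟨fun h => a (h ▸ rfl), fun h => b ((L.adj w hw y hy).mp h), x,
      (L.adj w hw x hx).mpr hx1, (L.adj x hx y hy).mpr hx2⟩

theorem LI.kk {H G : SimpleGraph V} {B B' : Set V} {f : V → V} (L : LI H G B B' f) {w a : V}
    (hw : w ∈ B) (ha : a ∈ B) (h1 : ∀ x, H.Adj w x → x ∈ B) (h1' : ∀ x, G.Adj (f w) x → x ∈ B')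
    (h3 : ∀ y, y ∈ S2 H w → H.Adj a y → y ∈ B)
    (h3' : ∀ y, y ∈ S2 G (f w) → G.Adj (f a) y → y ∈ B') :
    Pool.Agent.H82.Shot.kk H w a = Pool.Agent.H82.Shot.kk G (f w) (f a) := by
  unfold Pool.Agent.H82.Shot.kk
  refine Finset.card_bij (fun y _ => f y) ?_ ?_ ?_
  · intro y hy
    rw [mem_filter] at hy ⊢
    have hyB := h3 y hy.1 hy.2
    exact ⟨(L.mem_S2 hw hyB h1 h1').mp hy.1, (L.adj a ha y hyB).mp hy.2⟩
  · intro y hy z hz h
    rw [mem_filter] at hy hz
    exact L.bij.injOn (h3 y hy.1 hy.2) (h3 z hz.1 hz.2) h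
  · intro y' hy'
    rw [mem_filter] at hy'
    obtain ⟨y, hyB, rfl⟩ := L.bij.surjOn (h3' y' hy'.1 hy'.2)
    refine ⟨y, ?_, rfl⟩
    rw [mem_filter]
    exact ⟨(L.mem_S2 hw hyB h1 h1').mpr hy'.1, (L.adj a ha y hyB).mpr hy'.2⟩

theorem LI.hist {H G : SimpleGraph V} {B B' : Set V} {f : V → V} (L : LI H G B B' f) {w v : V}
    (hw : w ∈ B) (hv : v ∈ B) (h1 : ∀ x, H.Adj w x → x ∈ B) (h1' : ∀ x, G.Adj (f w) x → x ∈ B')
    (h2 : ∀ a, H.Adj v a → a ∈ B) (h2' : ∀ a, G.Adj (f v) a → a ∈ B')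
    (h3 : ∀ a y, H.Adj v a → y ∈ S2 H w → H.Adj a y → y ∈ B)
    (h3' : ∀ a y, G.Adj (f v) a → y ∈ S2 G (f w) → G.Adj a y → y ∈ B') (i : ℕ) :
    Pool.Agent.H82.Shot.hist H v w i = Pool.Agent.H82.Shot.hist G (f v) (f w) i := by
  have hkk : ∀ a, a ∈ B → H.Adj v a →
      Pool.Agent.H82.Shot.kk H w a = Pool.Agent.H82.Shot.kk G (f w) (f a) := by
    intro a ha hva
    exact L.kk hw ha h1 h1' (fun y hy hay => h3 a y hva hy hay)
      (fun y hy hay => h3' (f a) y ((L.adj v hv a ha).mp hva) hy hay)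
  unfold Pool.Agent.H82.Shot.hist
  refine Finset.card_bij (fun a _ => f a) ?_ ?_ ?_
  · intro a ha
    simp only [mem_filter, mem_univ, true_and] at ha ⊢
    obtain ⟨e1, e2, e3, e4⟩ := ha
    have haB := h2 a e1
    refine ⟨(L.adj v hv a haB).mp e1, fun h => e2 (L.bij.injOn haB hw h),
      fun h => e3 ((L.adj w hw a haB).mpr h), ?_⟩
    rw [← hkk a haB e1]
    exact e4
  · intro a ha b hb h
    simp only [mem_filter, mem_univ, true_and] at ha hb
    exact L.bij.injOn (h2 a ha.1) (h2 b hb.1) h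
  · intro a' ha'
    simp only [mem_filter, mem_univ, true_and] at ha'
    obtain ⟨e1, e2, e3, e4⟩ := ha'
    obtain ⟨a, haB, rfl⟩ := L.bij.surjOn (h2' a' e1)
    have hva := (L.adj v hv a haB).mpr e1
    refine ⟨a, ?_, rfl⟩
    simp only [mem_filter, mem_univ, true_and]
    refine ⟨hva, fun h => e2 (h ▸ rfl), fun h => e3 ((L.adj w hw a haB).mp h), ?_⟩
    rw [hkk a haB hva]
    exact e4

theorem mem_ball_of_S2 {G : SimpleGraph V} {w y : V} (h : y ∈ S2 G w) : y ∈ ball G w := by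
  obtain ⟨_, _, x, hx1, hx2⟩ := mem_S2.mp h
  exact mem_ball_of_adj_adj hx1 hx2

/-- the fingerprint of `(v, w)` seen from `v` -/
theorem hist_view_left {G H : SimpleGraph V} (W : Views G H) {v w : V} (h : H.Adj v w) (i : ℕ) :
    hist H v w i = hist G v (W.g v w) i := by
  have L : LI H G (ball H v) (ball G v) (W.g v) := ⟨W.bij v, W.adj v⟩
  have hr : W.g v v = v := W.root v
  have hg := W.g_adj h
  have key := L.hist (w := w) (v := v) (mem_ball_of_adj h) (self_mem_ball H v)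
    (fun x hx => mem_ball_of_adj_adj h hx) (fun x hx => mem_ball_of_adj_adj hg hx)
    (fun a ha => mem_ball_of_adj ha)
    (fun a ha => by rw [hr] at ha; exact mem_ball_of_adj ha)
    (fun a y ha _ hy => mem_ball_of_adj_adj ha hy)
    (fun a y ha _ hy => by rw [hr] at ha; exact mem_ball_of_adj_adj ha hy) i
  rw [hr] at key
  exact key

/-- the fingerprint of `(v, w)` seen from `w` -/
theorem hist_view_right {G H : SimpleGraph V} (W : Views G H) {v w : V} (h : H.Adj v w) (i : ℕ) :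
    hist H v w i = hist G (W.g w v) w i := by
  have L : LI H G (ball H w) (ball G w) (W.g w) := ⟨W.bij w, W.adj w⟩
  have hr : W.g w w = w := W.root w
  have hg := W.g_adj h.symm
  have key := L.hist (w := w) (v := v) (self_mem_ball H w) (mem_ball_of_adj h.symm)
    (fun x hx => mem_ball_of_adj hx)
    (fun x hx => by rw [hr] at hx; exact mem_ball_of_adj hx)
    (fun a ha => mem_ball_of_adj_adj h.symm ha)
    (fun a ha => mem_ball_of_adj_adj hg ha)
    (fun a y _ hy _ => mem_ball_of_S2 hy)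
    (fun a y _ hy _ => by rw [hr] at hy; exact mem_ball_of_S2 hy) i
  rw [hr] at key
  exact key

/-- two darts with the same fingerprint -/
def Bad (G : SimpleGraph V) (v w v' w' : V) : Prop :=
  G.Adj v w ∧ G.Adj v' w' ∧ v ≠ v' ∧ v ≠ w' ∧ ∀ i, hist G v w i = hist G v' w' i

/-- if there are no bad pairs of darts, the views determine the graph -/
theorem eq_of_no_bad {G H : SimpleGraph V} (W : Views G H)
    (hno : ∀ v w v' w', ¬ Bad G v w v' w') : H = G := by
  refine W.eq_of_wrong_empty ?_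
  rw [Finset.eq_empty_iff_forall_notMem]
  intro e
  induction e using Sym2.ind with
  | _ v w =>
    intro he
    rw [W.mem_wrong_mk] at he
    obtain ⟨h, hne⟩ := he
    have e1 : ∀ i, hist G v (W.g v w) i = hist G (W.g w v) w i := fun i => by
      rw [← hist_view_left W h, ← hist_view_right W h]
    have e2 : ∀ i, hist G w (W.g w v) i = hist G (W.g v w) v i := fun i => by
      rw [← hist_view_left W h.symm, ← hist_view_right W h.symm]
    have g1 : G.Adj v (W.g v w) := W.g_adj h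
    have g2 : G.Adj w (W.g w v) := W.g_adj h.symm
    -- `v = W.g w v`
    have hv : v = W.g w v := by
      by_contra hcon
      exact hno v (W.g v w) (W.g w v) w ⟨g1, g2.symm, hcon, h.ne, e1⟩
    have hw : w = W.g v w := by
      by_contra hcon
      exact hno w (W.g w v) (W.g v w) v ⟨g2, g1.symm, hcon, h.ne', e2⟩
    rcases hne with h' | h'
    · exact h' hw.symm
    · exact h' hv.symm

end Pool.Agent.H82.Shot
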