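import Mathlib
import Pool.Agent.H82.Shot.FingerA

/-!
# Fingerprints of darts: what changes when the pairs between two sets are resampled
-/

set_option autoImplicit false

open Finset Classical

namespace Pool.Agent.H82.Shot

open Pool.Agent.H90.Shot

variable {V : Type*} [Fintype V]

/-- `y` is neither `u` nor a neighbour of `u` -/
def Off (G : SimpleGraph V) (u y : V) : Prop := y ≠ u ∧ ¬ G.Adj u y

/-- the second set -/
noncomputable def Xf (G : SimpleGraph V) (v w v' w' : V) : Finset V :=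
  (S2 G w).filter fun y => Off G v y ∧ Off G v' y ∧ Off G w' y

/-- the first set -/
noncomputable def Af (G : SimpleGraph V) (v w v' w' : V) : Finset V :=
  univ.filter fun a => G.Adj v a ∧ Off G w a ∧ Off G v' a ∧ Off G w' a

/-- the part of the count `kk` which is not resampled -/
noncomputable def k0 (G : SimpleGraph V) (v w v' w' a : V) : ℕ :=
  ((S2 G w).filter fun y => y ∉ Xf G v w v' w' ∧ G.Adj a y).card

/-- the vertices of the first set with `k0 = c` -/
noncomputable def Ac (G : SimpleGraph V) (v w v' w' : V) (c : ℕ) : Finset V :=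
  (Af G v w v' w').filter fun a => k0 G v w v' w' a = c

/-- the part of the fingerprint of `(v, w)` which is not resampled -/
noncomputable def oth (G : SimpleGraph V) (v w v' w' : V) (c i : ℕ) : ℕ :=
  (univ.filter fun a => G.Adj v a ∧ a ≠ w ∧ ¬ G.Adj w a ∧ a ∉ Ac G v w v' w' c ∧
    kk G w a = i).card

/-- the two graphs agree outside `A × X` -/
def Agree (G G' : SimpleGraph V) (A X : Finset V) : Prop :=
  ∀ a b, ¬ (a ∈ A ∧ b ∈ X) → ¬ (b ∈ A ∧ a ∈ X) → (G'.Adj a b ↔ G.Adj a b)

theorem mem_Xf {G : SimpleGraph V} {v w v' w' y : V} :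
    y ∈ Xf G v w v' w' ↔ y ∈ S2 G w ∧ Off G v y ∧ Off G v' y ∧ Off G w' y := by
  unfold Xf
  rw [mem_filter]

theorem mem_Af {G : SimpleGraph V} {v w v' w' a : V} :
    a ∈ Af G v w v' w' ↔ G.Adj v a ∧ Off G w a ∧ Off G v' a ∧ Off G w' a := by
  unfold Af
  simp

theorem mem_Ac {G : SimpleGraph V} {v w v' w' a : V} {c : ℕ} :
    a ∈ Ac G v w v' w' c ↔ a ∈ Af G v w v' w' ∧ k0 G v w v' w' a = c := by
  unfold Ac
  rw [mem_filter]

theorem disj_AX {G : SimpleGraph V} {v w v' w' a : V} (ha : G.Adj v a) :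
    a ∉ Xf G v w v' w' := fun h => (mem_Xf.mp h).2.1.2 ha

section inv

variable {G G' : SimpleGraph V} {v w v' w' : V} {c : ℕ}

/-- pairs with an element outside both sets -/
theorem Agree.of_notMem {A X : Finset V} (h : Agree G G' A X) {a b : V} (h1 : a ∉ A)
    (h2 : a ∉ X) : (G'.Adj a b ↔ G.Adj a b) :=
  h a b (fun h' => h1 h'.1) (fun h' => h2 h'.2)

variable (hA : Agree G G' (Ac G v w v' w' c) (Xf G v w v' w'))

include hA

theorem adj_v (b : V) : G'.Adj v b ↔ G.Adj v b :=
  hA.of_notMem (fun h => (mem_Af.mp (mem_Ac.mp h).1).1.ne rfl)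
    (fun h => (mem_Xf.mp h).2.1.1 rfl)

theorem adj_w (b : V) : G'.Adj w b ↔ G.Adj w b :=
  hA.of_notMem (fun h => (mem_Af.mp (mem_Ac.mp h).1).2.1.1 rfl)
    (fun h => (mem_S2.mp (mem_Xf.mp h).1).1 rfl)

theorem adj_v' (b : V) : G'.Adj v' b ↔ G.Adj v' b :=
  hA.of_notMem (fun h => (mem_Af.mp (mem_Ac.mp h).1).2.2.1.1 rfl)
    (fun h => (mem_Xf.mp h).2.2.1.1 rfl)

theorem adj_w' (b : V) : G'.Adj w' b ↔ G.Adj w' b :=
  hA.of_notMem (fun h => (mem_Af.mp (mem_Ac.mp h).1).2.2.2.1 rfl)
    (fun h => (mem_Xf.mp h).2.2.2.1 rfl)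

theorem S2_w : S2 G' w = S2 G w := by
  ext y
  rw [mem_S2, mem_S2, adj_w hA]
  refine and_congr_right fun _ => and_congr_right fun _ => exists_congr fun x => ?_
  rw [adj_w hA]
  refine and_congr_right fun hx => ?_
  refine hA.of_notMem (fun h => (mem_Af.mp (mem_Ac.mp h).1).2.1.2 hx) (fun h => ?_)
  exact (mem_S2.mp (mem_Xf.mp h).1).2.1 hx

theorem S2_w' : S2 G' w' = S2 G w' := by
  ext y
  rw [mem_S2, mem_S2, adj_w' hA]
  refine and_congr_right fun _ => and_congr_right fun _ => exists_congr fun x => ?_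
  rw [adj_w' hA]
  refine and_congr_right fun hx => ?_
  refine hA.of_notMem (fun h => (mem_Af.mp (mem_Ac.mp h).1).2.2.2.2 hx) (fun h => ?_)
  exact (mem_Xf.mp h).2.2.2.2 hx

theorem Xf_eq : Xf G' v w v' w' = Xf G v w v' w' := by
  ext y
  rw [mem_Xf, mem_Xf, S2_w hA]
  unfold Off
  rw [adj_v hA, adj_v' hA, adj_w' hA]

theorem Af_eq : Af G' v w v' w' = Af G v w v' w' := by
  ext y
  rw [mem_Af, mem_Af]
  unfold Off
  rw [adj_v hA, adj_v' hA, adj_w' hA, adj_w hA]

theorem k0_eq {a : V} (ha : G.Adj v a) : k0 G' v w v' w' a = k0 G v w v' w' a := by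
  unfold k0
  rw [S2_w hA, Xf_eq hA]
  congr 1
  refine filter_congr fun y _ => ?_
  refine and_congr_right fun hy => ?_
  exact hA a y (fun h => hy h.2) (fun h => disj_AX ha h.2)

theorem Ac_eq : Ac G' v w v' w' c = Ac G v w v' w' c := by
  ext a
  rw [mem_Ac, mem_Ac, Af_eq hA]
  refine and_congr_right fun ha => ?_
  rw [k0_eq hA (mem_Af.mp ha).1]

theorem kk_w' {a : V} (ha : G.Adj v' a) : kk G' w' a = kk G w' a := by
  unfold kk
  rw [S2_w' hA]
  congr 1
  refine filter_congr fun y _ => ?_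
  refine hA.of_notMem (fun h => (mem_Af.mp (mem_Ac.mp h).1).2.2.1.2 ha)
    (fun h => (mem_Xf.mp h).2.2.1.2 ha)

theorem hist_v' (i : ℕ) : hist G' v' w' i = hist G v' w' i := by
  unfold hist
  congr 1
  refine filter_congr fun a _ => ?_
  rw [adj_v' hA, adj_w' hA]
  refine and_congr_right fun ha => ?_
  rw [kk_w' hA ha]

theorem kk_other {a : V} (ha : G.Adj v a) (ha' : a ∉ Ac G v w v' w' c) :
    kk G' w a = kk G w a := by
  unfold kk
  rw [S2_w hA]
  congr 1
  refine filter_congr fun y _ => ?_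
  exact hA.of_notMem ha' (disj_AX ha)

theorem kk_Ac {a : V} (ha : a ∈ Ac G v w v' w' c) :
    kk G' w a = c + ((Xf G v w v' w').filter fun y => G'.Adj a y).card := by
  have hva := (mem_Af.mp (mem_Ac.mp ha).1).1
  have h1 : c = ((S2 G w).filter fun y => y ∉ Xf G v w v' w' ∧ G'.Adj a y).card := by
    rw [← (mem_Ac.mp ha).2]
    unfold k0
    congr 1
    refine filter_congr fun y _ => ?_
    refine and_congr_right fun hy => ?_
    exact (hA a y (fun h => hy h.2) (fun h => disj_AX hva h.2)).symm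
  have h2 : ((Xf G v w v' w').filter fun y => G'.Adj a y) =
      (S2 G w).filter fun y => ¬ (y ∉ Xf G v w v' w') ∧ G'.Adj a y := by
    ext y
    simp only [mem_filter, not_not]
    constructor
    · rintro ⟨e1, e2⟩
      exact ⟨(mem_Xf.mp e1).1, e1, e2⟩
    · rintro ⟨_, e1, e2⟩
      exact ⟨e1, e2⟩
  unfold kk
  rw [S2_w hA, h2]
  conv_rhs => rw [h1]
  rw [← card_union_of_disjoint]
  · congr 1
    ext y
    simp only [mem_filter, mem_union]
    tauto
  · rw [disjoint_left]
    intro y hy hy'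
    exact (mem_filter.mp hy').2.1 (mem_filter.mp hy).2.1

/-- the part of the fingerprint which does not change -/
theorem hist_split (i : ℕ) : hist G' v w i = oth G v w v' w' c i +
    ((Ac G v w v' w' c).filter fun a =>
      c + ((Xf G v w v' w').filter fun y => G'.Adj a y).card = i).card := by
  unfold hist oth
  rw [← card_union_of_disjoint]
  · congr 1
    ext a
    simp only [mem_filter, mem_union, mem_univ, true_and]
    rw [adj_v hA, adj_w hA]
    constructor
    · rintro ⟨e1, e2, e3, e4⟩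
      by_cases ha : a ∈ Ac G v w v' w' c
      · right
        exact ⟨ha, by rw [← kk_Ac hA ha]; exact e4⟩
      · left
        exact ⟨e1, e2, e3, ha, by rw [← kk_other hA e1 ha]; exact e4⟩
    · rintro (⟨e1, e2, e3, ha, e4⟩ | ⟨ha, e4⟩)
      · exact ⟨e1, e2, e3, by rw [kk_other hA e1 ha]; exact e4⟩
      · have h5 := mem_Af.mp (mem_Ac.mp ha).1
        exact ⟨h5.1, h5.2.1.1, h5.2.1.2, by rw [kk_Ac hA ha]; exact e4⟩
  · rw [disjoint_left]
    intro a ha ha'
    simp only [mem_filter, mem_univ, true_and] at ha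
    exact ha.2.2.2.1 (mem_filter.mp ha').1

end inv

end Pool.Agent.H82.Shot
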