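import Mathlib

/-!
# Binomial weights: mode, upper bound of the maximum, lower bound near the mode
-/

set_option autoImplicit false

open Finset

namespace Pool.Agent.H82.Shot

/-- binomial weight -/
noncomputable def bb (m : ℕ) (t : ℝ) (k : ℕ) : ℝ := (m.choose k : ℝ) * t ^ k * (1 - t) ^ (m - k)

theorem bb_nonneg {m : ℕ} {t : ℝ} (h0 : 0 ≤ t) (h1 : t ≤ 1) (k : ℕ) : 0 ≤ bb m t k := by
  unfold bb
  have : 0 ≤ 1 - t := by linarith
  positivity

theorem bb_eq_zero {m k : ℕ} (t : ℝ) (h : m < k) : bb m t k = 0 := by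
  unfold bb
  rw [Nat.choose_eq_zero_of_lt h]
  simp

theorem bb_sum (m : ℕ) (t : ℝ) : ∑ k ∈ range (m + 1), bb m t k = 1 := by
  have h := add_pow t (1 - t) m
  rw [add_sub_cancel, one_pow] at h
  rw [h]
  refine sum_congr rfl fun k _ => ?_
  unfold bb
  ring

theorem bb_sum_le {m : ℕ} {t : ℝ} (h0 : 0 ≤ t) (h1 : t ≤ 1) (s : Finset ℕ) :
    ∑ k ∈ s, bb m t k ≤ 1 := by
  have h : ∑ k ∈ s, bb m t k = ∑ k ∈ s.filter (fun k => k ∈ range (m + 1)), bb m t k := by
    rw [sum_filter]
    refine sum_congr rfl fun k _ => ?_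
    split_ifs with hk
    · rfl
    · rw [mem_range] at hk
      exact bb_eq_zero t (by omega)
  rw [h, ← bb_sum m t]
  refine sum_le_sum_of_subset_of_nonneg ?_ (fun k _ _ => bb_nonneg h0 h1 k)
  intro k hk
  exact (mem_filter.mp hk).2

theorem bb_ratio {m : ℕ} (t : ℝ) {k : ℕ} (hk : k ≤ m) :
    ((k : ℝ) + 1) * (1 - t) * bb m t (k + 1) = ((m : ℝ) - k) * t * bb m t k := by
  rcases hk.eq_or_lt with rfl | hk
  · rw [bb_eq_zero t (by omega)]
    simp
  · unfold bb
    have h1 : m - k = (m - (k + 1)) + 1 := by omega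
    have h2 := Nat.choose_succ_right_eq m k
    have h3 : (m.choose (k + 1) : ℝ) * ((k : ℝ) + 1) = (m.choose k : ℝ) * ((m : ℝ) - k) := by
      have : ((m.choose (k + 1) * (k + 1) : ℕ) : ℝ) = ((m.choose k * (m - k) : ℕ) : ℝ) := by
        rw [h2]
      push_cast [Nat.cast_sub hk.le] at this
      exact this
    rw [h1, pow_succ, pow_succ]
    calc ((k : ℝ) + 1) * (1 - t) * ((m.choose (k + 1) : ℝ) * (t ^ k * t) * (1 - t) ^ (m - (k + 1)))
        = ((m.choose (k + 1) : ℝ) * ((k : ℝ) + 1)) * (1 - t) * (t ^ k * t) *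
          (1 - t) ^ (m - (k + 1)) := by ring
      _ = _ := by rw [h3]; ring

theorem bb_le_succ {m k : ℕ} {t : ℝ} (h0 : 0 ≤ t) (h1 : t < 1)
    (h : (k : ℝ) + 1 ≤ (m + 1) * t) : bb m t k ≤ bb m t (k + 1) := by
  have hkm : k ≤ m := by
    by_contra hcon
    have h2 : (m : ℝ) + 1 ≤ k := by exact_mod_cast (not_le.mp hcon)
    have h3 : ((m : ℝ) + 1) * t ≤ (m + 1) * 1 := by
      refine mul_le_mul_of_nonneg_left h1.le (by positivity)
    linarith
  have hr := bb_ratio t hkm
  have hpos : 0 < ((k : ℝ) + 1) * (1 - t) := mul_pos (by positivity) (by linarith)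
  have hb := bb_nonneg (m := m) h0 h1.le k
  have h4 : ((k : ℝ) + 1) * (1 - t) ≤ ((m : ℝ) - k) * t := by linarith
  have h5 := mul_le_mul_of_nonneg_right h4 hb
  rw [← hr] at h5
  exact le_of_mul_le_mul_left h5 hpos

theorem bb_succ_le {m k : ℕ} {t : ℝ} (h0 : 0 ≤ t) (h1 : t < 1)
    (h : ((m : ℝ) + 1) * t ≤ k + 1) : bb m t (k + 1) ≤ bb m t k := by
  by_cases hkm : k ≤ m
  · have hr := bb_ratio t hkm
    have hpos : 0 < ((k : ℝ) + 1) * (1 - t) := mul_pos (by positivity) (by linarith)
    have hb := bb_nonneg (m := m) h0 h1.le k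
    have h4 : ((m : ℝ) - k) * t ≤ ((k : ℝ) + 1) * (1 - t) := by linarith
    have h5 := mul_le_mul_of_nonneg_right h4 hb
    rw [← hr] at h5
    exact le_of_mul_le_mul_left h5 hpos
  · rw [bb_eq_zero t (by omega)]
    exact bb_nonneg h0 h1.le k

/-- the mode -/
noncomputable def md (m : ℕ) (t : ℝ) : ℕ := ⌊((m : ℝ) + 1) * t⌋₊

theorem md_le {m : ℕ} {t : ℝ} (h0 : 0 ≤ t) : (md m t : ℝ) ≤ (m + 1) * t :=
  Nat.floor_le (by positivity)

theorem lt_md {m : ℕ} (t : ℝ) : ((m : ℝ) + 1) * t < md m t + 1 :=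
  Nat.lt_floor_add_one _

theorem bb_le_mode {m : ℕ} {t : ℝ} (h0 : 0 ≤ t) (h1 : t < 1) (k : ℕ) :
    bb m t k ≤ bb m t (md m t) := by
  rcases le_total k (md m t) with hk | hk
  · obtain ⟨d, hd⟩ := Nat.exists_eq_add_of_le hk
    clear hk
    induction d generalizing k with
    | zero => rw [hd]; simp
    | succ d ih =>
      refine (bb_le_succ h0 h1 ?_).trans (ih (k + 1) (by omega))
      have h2 := md_le (m := m) h0
      rw [hd] at h2
      push_cast at h2
      have : (0 : ℝ) ≤ d := by positivity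
      linarith
  · obtain ⟨d, hd⟩ := Nat.exists_eq_add_of_le hk
    clear hk
    induction d generalizing k with
    | zero => rw [hd]; simp
    | succ d ih =>
      have h3 := ih (md m t + d) rfl
      refine le_trans ?_ h3
      rw [hd, ← add_assoc]
      refine bb_succ_le h0 h1 ?_
      have h2 := lt_md (m := m) t
      push_cast
      have : (0 : ℝ) ≤ d := by positivity
      linarith

/-- near the mode the weights are not much smaller -/
theorem bb_near_mode {m : ℕ} {t s J : ℝ} (h0 : 0 ≤ t) (h1 : t < 1)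
    (hs : s = ((m : ℝ) + 1) * t * (1 - t)) (hs0 : 0 < s) (hJ : 0 ≤ J) :
    ∀ j : ℕ, (j : ℝ) ≤ J → (J : ℝ) ≤ s →
      (1 - j * J / s) * bb m t (md m t) ≤ bb m t (md m t + j) := by
  intro j
  induction j with
  | zero => intro _ _; simp
  | succ j ih =>
    intro hj hJs
    push_cast at hj
    have ih' := ih (by linarith) hJs
    have hmode := bb_nonneg (m := m) h0 h1.le (md m t)
    have hcur := bb_nonneg (m := m) h0 h1.le (md m t + j)
    have hmd := md_le (m := m) h0
    have hj0 : (0 : ℝ) ≤ j := by positivity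
    have h1t : 0 < 1 - t := by linarith
    have ht0 : 0 < t := by
      rcases h0.eq_or_lt with h | h
      · exfalso; rw [← h] at hs; simp at hs; linarith
      · exact h
    -- `j + 1 ≤ s ≤ (m+1)(1-t)`
    have hs2 : s ≤ ((m : ℝ) + 1) * (1 - t) := by
      rw [hs]
      have : ((m : ℝ) + 1) * (1 - t) * t ≤ ((m : ℝ) + 1) * (1 - t) * 1 := by
        refine mul_le_mul_of_nonneg_left h1.le (by positivity)
      linarith
    have hkm : ((md m t + j : ℕ) : ℝ) ≤ m := by
      push_cast
      linarith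
    have hkm' : md m t + j ≤ m := by exact_mod_cast hkm
    have hr := bb_ratio t hkm'
    push_cast at hr hkm
    -- ratio is at least `1 - J/s`
    have hstep : (1 - J / s) * bb m t (md m t + j) ≤ bb m t (md m t + j + 1) := by
      set k : ℝ := (md m t : ℝ) + j with hk
      have hkpos : 0 < (k + 1) * (1 - t) := by positivity
      have hkk : k ≤ (m + 1) * t + j := by linarith
      have key : (1 - J / s) * ((k + 1) * (1 - t)) ≤ ((m : ℝ) - k) * t := by
        have e1 : (k + 1) * (1 - t) ≤ s + (j + 1) * (1 - t) := by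
          rw [hs]
          have := mul_le_mul_of_nonneg_right hkk h1t.le
          linarith
        have e2 : s - (j + 1) * t ≤ ((m : ℝ) - k) * t := by
          rw [hs]
          have := mul_le_mul_of_nonneg_right hkk ht0.le
          linarith
        have e3 : 0 ≤ 1 - J / s := by
          rw [sub_nonneg, div_le_one hs0]
          exact hJs
        have e4 : (1 - J / s) * ((k + 1) * (1 - t)) ≤ (1 - J / s) * (s + (j + 1) * (1 - t)) :=
          mul_le_mul_of_nonneg_left e1 e3
        have e5 : (1 - J / s) * (s + (j + 1) * (1 - t)) =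
            s + (j + 1) * (1 - t) - J - J / s * ((j + 1) * (1 - t)) := by
          field_simp
          ring
        have e6 : 0 ≤ J / s * ((j + 1) * (1 - t)) := by positivity
        linarith
      have h7 := mul_le_mul_of_nonneg_right key hcur
      rw [← hr] at h7
      have h8 : (k + 1) * (1 - t) * ((1 - J / s) * bb m t (md m t + j)) ≤
          (k + 1) * (1 - t) * bb m t (md m t + j + 1) := by
        calc _ = (1 - J / s) * ((k + 1) * (1 - t)) * bb m t (md m t + j) := by ring
          _ ≤ _ := h7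
      exact le_of_mul_le_mul_left h8 hkpos
    have e3 : 0 ≤ 1 - J / s := by
      rw [sub_nonneg, div_le_one hs0]
      exact hJs
    calc (1 - ((j + 1 : ℕ) : ℝ) * J / s) * bb m t (md m t)
        ≤ ((1 - J / s) * (1 - j * J / s)) * bb m t (md m t) := by
          refine mul_le_mul_of_nonneg_right ?_ hmode
          push_cast
          have : 0 ≤ (J / s) * (j * J / s) := by positivity
          have e : (1 - J / s) * (1 - j * J / s) = 1 - (j + 1) * J / s + (J / s) * (j * J / s) := by
            ring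
          linarith
      _ = (1 - J / s) * ((1 - j * J / s) * bb m t (md m t)) := by ring
      _ ≤ (1 - J / s) * bb m t (md m t + j) := mul_le_mul_of_nonneg_left ih' e3
      _ ≤ bb m t (md m t + j + 1) := hstep
      _ = bb m t (md m t + (j + 1)) := by rw [add_assoc]

/-- the maximum of the binomial weights -/
theorem bb_le {m : ℕ} {t : ℝ} (h0 : 0 ≤ t) (h1 : t ≤ 1) (k : ℕ)
    {s : ℝ} (hs : s = ((m : ℝ) + 1) * t * (1 - t)) (hs0 : 0 < s) : bb m t k ≤ 4 / √s := by
  have hle1 : bb m t k ≤ 1 := by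
    have := bb_sum_le (m := m) h0 h1 {k}
    simpa using this
  have h1' : t < 1 := by
    rcases h1.eq_or_lt with h | h
    · exfalso; rw [h] at hs; simp at hs; linarith
    · exact h
  have hsq : 0 < √s := Real.sqrt_pos.mpr hs0
  have hss : √s * √s = s := Real.mul_self_sqrt hs0.le
  by_cases hs4 : √s ≤ 4
  · refine hle1.trans ?_
    rw [le_div_iff₀ hsq]
    linarith
  · push Not at hs4
    refine (bb_le_mode h0 h1' k).trans ?_
    set J : ℝ := √s / 2 with hJ
    set N : ℕ := ⌊J⌋₊ with hN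
    have hJ0 : 0 ≤ J := by positivity
    have hNJ : (N : ℝ) ≤ J := Nat.floor_le hJ0
    have hJN : J < N + 1 := Nat.lt_floor_add_one _
    have hJs : J ≤ s := by
      rw [← hss]
      nlinarith
    have hmode := bb_nonneg (m := m) h0 h1 (md m t)
    have hlow : ∀ j ∈ range (N + 1), (3 / 4) * bb m t (md m t) ≤ bb m t (md m t + j) := by
      intro j hj
      rw [mem_range] at hj
      have hjN : (j : ℝ) ≤ N := by exact_mod_cast (Nat.lt_succ_iff.mp hj)
      have h3 := bb_near_mode h0 h1' hs hs0 hJ0 j (by linarith) hJs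
      refine le_trans ?_ h3
      refine mul_le_mul_of_nonneg_right ?_ hmode
      have h4 : (j : ℝ) * J / s ≤ 1 / 4 := by
        rw [div_le_iff₀ hs0]
        have : (j : ℝ) * J ≤ J * J := mul_le_mul_of_nonneg_right (by linarith) hJ0
        have hJJ : J * J = s / 4 := by rw [hJ]; nlinarith
        linarith
      linarith
    have hsum : ((N : ℝ) + 1) * ((3 / 4) * bb m t (md m t)) ≤ 1 := by
      calc ((N : ℝ) + 1) * ((3 / 4) * bb m t (md m t))
          = ∑ j ∈ range (N + 1), (3 / 4) * bb m t (md m t) := by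
            rw [sum_const, card_range, nsmul_eq_mul]; push_cast; ring
        _ ≤ ∑ j ∈ range (N + 1), bb m t (md m t + j) := sum_le_sum hlow
        _ = ∑ k ∈ (range (N + 1)).map (addLeftEmbedding (md m t)), bb m t k := by
            rw [sum_map]; rfl
        _ ≤ 1 := bb_sum_le h0 h1 _
    rw [le_div_iff₀ hsq]
    have h6 : J * ((3 / 4) * bb m t (md m t)) ≤ 1 := by
      refine le_trans (mul_le_mul_of_nonneg_right hJN.le (by positivity)) hsum
    have h7 : bb m t (md m t) * √s = (8 / 3) * (J * ((3 / 4) * bb m t (md m t))) := by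
      rw [hJ]; ring
    rw [h7]
    linarith

/-- the variance -/
theorem bb_variance (m : ℕ) (t : ℝ) :
    ∑ k ∈ range (m + 1), ((m : ℝ) * t - k) ^ 2 * bb m t k = m * t * (1 - t) := by
  have h := congrArg (Polynomial.eval t) (bernsteinPolynomial.variance ℝ m)
  rw [Polynomial.eval_finsetSum] at h
  simp only [bernsteinPolynomial, Polynomial.eval_mul, Polynomial.eval_pow, Polynomial.eval_sub,
    Polynomial.eval_natCast, Polynomial.eval_X, Polynomial.eval_one, nsmul_eq_mul] at h
  rw [← h]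
  refine sum_congr rfl fun k _ => ?_
  unfold bb
  ring

/-- lower bound for the weight of the mode -/
theorem mode_lb {m : ℕ} {t : ℝ} (h0 : 0 ≤ t) (h1 : t < 1) {s : ℝ}
    (hs : s = (m : ℝ) * t * (1 - t)) (hs1 : 1 ≤ s) : 3 / (20 * √s) ≤ bb m t (md m t) := by
  set B := bb m t (md m t) with hB
  have hs0 : 0 < s := by linarith
  have hsq : 1 ≤ √s := by
    rw [show (1 : ℝ) = √1 by simp]
    exact Real.sqrt_le_sqrt hs1
  have hss : √s * √s = s := Real.mul_self_sqrt hs0.le
  have hB0 : 0 ≤ B := bb_nonneg h0 h1.le _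
  -- the far part
  set near : Finset ℕ := (range (m + 1)).filter (fun k : ℕ => |(m : ℝ) * t - (k : ℝ)| < 2 * √s) with hnear
  set farr : Finset ℕ := (range (m + 1)).filter (fun k : ℕ => ¬ |(m : ℝ) * t - (k : ℝ)| < 2 * √s) with hfar
  have hsplit : ∑ k ∈ near, bb m t k + ∑ k ∈ farr, bb m t k = 1 := by
    rw [hnear, hfar, sum_filter_add_sum_filter_not, bb_sum]
  have hfar_le : ∑ k ∈ farr, bb m t k ≤ 1 / 4 := by
    have h2 : (4 * s) * ∑ k ∈ farr, bb m t k ≤ s := by
      rw [mul_sum]
      calc ∑ k ∈ farr, 4 * s * bb m t k ≤ ∑ k ∈ farr, ((m : ℝ) * t - k) ^ 2 * bb m t k := by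
            refine sum_le_sum fun k hk => ?_
            refine mul_le_mul_of_nonneg_right ?_ (bb_nonneg h0 h1.le k)
            have h3 := (mem_filter.mp hk).2
            push Not at h3
            have h4 : (2 * √s) ^ 2 ≤ |(m : ℝ) * t - k| ^ 2 :=
              pow_le_pow_left₀ (by positivity) h3 2
            rw [sq_abs] at h4
            have h5 : (2 * √s) ^ 2 = 4 * s := by rw [mul_pow, Real.sq_sqrt hs0.le]; ring
            rw [h5] at h4
            exact h4
        _ ≤ ∑ k ∈ range (m + 1), ((m : ℝ) * t - k) ^ 2 * bb m t k := by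
            refine sum_le_sum_of_subset_of_nonneg (filter_subset _ _) (fun k _ _ => ?_)
            exact mul_nonneg (sq_nonneg _) (bb_nonneg h0 h1.le k)
        _ = s := by rw [bb_variance, hs]
    have h3 : (∑ k ∈ farr, bb m t k) * (4 * s) ≤ (1 / 4) * (4 * s) := by linarith
    exact le_of_mul_le_mul_right h3 (by positivity)
  have hnear_ge : 3 / 4 ≤ ∑ k ∈ near, bb m t k := by linarith
  have hcard : ((near.card : ℕ) : ℝ) ≤ 5 * √s := by
    -- `near` injects into an integer interval
    have hsub : near.card ≤ (Finset.Icc ⌈(m : ℝ) * t - 2 * √s⌉ ⌊(m : ℝ) * t + 2 * √s⌋).card := by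
      refine card_le_card_of_injOn (fun k => (k : ℤ)) ?_ ?_
      · intro k hk
        have h3 := (mem_filter.mp hk).2
        rw [abs_lt] at h3
        simp only [coe_Icc, Set.mem_Icc]
        constructor
        · rw [Int.ceil_le]
          push_cast
          linarith
        · rw [Int.le_floor]
          push_cast
          linarith
      · intro a _ b _ hab
        exact Nat.cast_injective (R := ℤ) hab
    have h6 : ((Finset.Icc ⌈(m : ℝ) * t - 2 * √s⌉ ⌊(m : ℝ) * t + 2 * √s⌋).card : ℝ) ≤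
        4 * √s + 1 := by
      rw [Int.card_Icc]
      have h7 := Int.floor_le ((m : ℝ) * t + 2 * √s)
      have h8 := Int.le_ceil ((m : ℝ) * t - 2 * √s)
      have h9 : (((⌊(m : ℝ) * t + 2 * √s⌋ + 1 - ⌈(m : ℝ) * t - 2 * √s⌉).toNat : ℕ) : ℝ) =
          (((⌊(m : ℝ) * t + 2 * √s⌋ + 1 - ⌈(m : ℝ) * t - 2 * √s⌉).toNat : ℤ) : ℝ) := by
        push_cast; rfl
      rw [h9]
      rcases le_total 0 (⌊(m : ℝ) * t + 2 * √s⌋ + 1 - ⌈(m : ℝ) * t - 2 * √s⌉) with hz | hz
      · rw [Int.toNat_of_nonneg hz]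
        push_cast
        linarith
      · rw [Int.toNat_of_nonpos hz]
        simp
        positivity
    have h7 : ((near.card : ℕ) : ℝ) ≤
        ((Finset.Icc ⌈(m : ℝ) * t - 2 * √s⌉ ⌊(m : ℝ) * t + 2 * √s⌋).card : ℝ) := by
      exact_mod_cast hsub
    linarith
  have hfin : ∑ k ∈ near, bb m t k ≤ 5 * √s * B := by
    calc ∑ k ∈ near, bb m t k ≤ ∑ k ∈ near, B := sum_le_sum fun k _ => bb_le_mode h0 h1 k
      _ = near.card * B := by rw [sum_const, nsmul_eq_mul]
      _ ≤ 5 * √s * B := mul_le_mul_of_nonneg_right hcard hB0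
  rw [div_le_iff₀ (by positivity)]
  nlinarith

end Pool.Agent.H82.Shot
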