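import Mathlib
import Pool.Agent.H90.Shot.Prob
import Pool.Agent.H82.Shot.Binom

/-!
# Anti-concentration of the histogram of row sums of a random subset of `A × X`
-/

set_option autoImplicit false

open Finset Classical

namespace Pool.Agent.H82.Shot

open Pool.Agent.H90.Shot

theorem binom_term_le {x y : ℝ} (hx : 0 ≤ x) (hy : 0 ≤ y) (a b : ℕ) :
    ((a + b).choose a : ℝ) * x ^ a * y ^ b ≤ (x + y) ^ (a + b) := by
  rw [add_pow]
  have h := single_le_sum (f := fun k => x ^ k * y ^ (a + b - k) * ((a + b).choose k : ℝ))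
    (s := range (a + b + 1)) (fun k _ => by positivity) (a := a) (by simp)
  simp only [Nat.add_sub_cancel_left] at h
  calc ((a + b).choose a : ℝ) * x ^ a * y ^ b = x ^ a * y ^ b * ((a + b).choose a : ℝ) := by ring
    _ ≤ _ := h

/-- one term of the multinomial theorem -/
theorem multi_le {ι : Type*} (s : Finset ι) (x : ι → ℝ) (hx : ∀ i, 0 ≤ x i) (k : ι → ℕ) :
    ((∑ i ∈ s, k i).factorial : ℝ) * ∏ i ∈ s, (x i ^ k i / (k i).factorial) ≤
      (∑ i ∈ s, x i) ^ (∑ i ∈ s, k i) := by
  induction s using Finset.induction_on with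
  | empty => simp
  | insert i s hi ih =>
    rw [sum_insert hi, sum_insert hi, prod_insert hi]
    set K := ∑ j ∈ s, k j with hK
    set P := ∏ j ∈ s, (x j ^ k j / (k j).factorial) with hP
    set X := ∑ j ∈ s, x j with hX
    have hX0 : 0 ≤ X := sum_nonneg fun j _ => hx j
    have h1 : (((k i + K).factorial : ℕ) : ℝ) =
        ((k i + K).choose (k i) : ℝ) * (k i).factorial * K.factorial := by
      have := Nat.choose_mul_factorial_mul_factorial (Nat.le_add_right (k i) K)
      rw [Nat.add_sub_cancel_left] at this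
      exact_mod_cast this.symm
    have h2 : ((k i).factorial : ℝ) ≠ 0 := by exact_mod_cast (Nat.factorial_ne_zero _)
    calc (((k i + K).factorial : ℕ) : ℝ) * (x i ^ k i / (k i).factorial * P)
        = ((k i + K).choose (k i) : ℝ) * x i ^ k i * ((K.factorial : ℝ) * P) := by
          rw [h1]; field_simp
      _ ≤ ((k i + K).choose (k i) : ℝ) * x i ^ k i * X ^ K := by
          refine mul_le_mul_of_nonneg_left ih ?_
          have := hx i
          positivity
      _ ≤ (x i + X) ^ (k i + K) := binom_term_le (hx i) hX0 _ _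

theorem prod_range_two_mul (f : ℕ → ℝ) (M : ℕ) :
    ∏ i ∈ range (2 * M), f i = ∏ l ∈ range M, (f (2 * l) * f (2 * l + 1)) := by
  induction M with
  | zero => simp
  | succ M ih =>
    rw [show 2 * (M + 1) = 2 * M + 1 + 1 by ring, prod_range_succ, prod_range_succ, ih,
      prod_range_succ, mul_assoc]

theorem sum_range_two_mul {R : Type*} [AddCommMonoid R] (f : ℕ → R) (M : ℕ) :
    ∑ i ∈ range (2 * M), f i = ∑ l ∈ range M, (f (2 * l) + f (2 * l + 1)) := by
  induction M with
  | zero => simp
  | succ M ih =>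
    rw [show 2 * (M + 1) = 2 * M + 1 + 1 by ring, sum_range_succ, sum_range_succ, ih,
      sum_range_succ, add_assoc]

/-- the multinomial probability of the histogram `h` -/
noncomputable def TT (q : ℕ → ℝ) (R : ℕ) (h : ℕ → ℕ) (m : ℕ) : ℝ :=
  (m.factorial : ℝ) * ∏ i ∈ range R, (q i ^ h i / (h i).factorial)

theorem TT_nonneg {q : ℕ → ℝ} (hq : ∀ i, 0 ≤ q i) (R : ℕ) (h : ℕ → ℕ) (m : ℕ) :
    0 ≤ TT q R h m := by
  unfold TT
  refine mul_nonneg (by positivity) (prod_nonneg fun i _ => ?_)
  have := hq i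
  positivity

/-- Merging the classes `2l` and `2l+1`. -/
theorem TT_le {q : ℕ → ℝ} (hq : ∀ i, 0 ≤ q i) (M : ℕ) (hsum : ∑ i ∈ range (2 * M), q i ≤ 1)
    (h : ℕ → ℕ) {m : ℕ} (hm : ∑ i ∈ range (2 * M), h i = m) (L : Finset ℕ) (hL : L ⊆ range M)
    {β : ℝ} (hβ : 0 ≤ β)
    (hb : ∀ l ∈ L, ((h (2 * l) + h (2 * l + 1)).choose (h (2 * l)) : ℝ) * q (2 * l) ^ h (2 * l) *
      q (2 * l + 1) ^ h (2 * l + 1) ≤ β * (q (2 * l) + q (2 * l + 1)) ^ (h (2 * l) + h (2 * l + 1))) :
    TT q (2 * M) h m ≤ β ^ L.card := by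
  unfold TT
  rw [prod_range_two_mul]
  set Q : ℕ → ℝ := fun l => q (2 * l) + q (2 * l + 1) with hQ
  set n : ℕ → ℕ := fun l => h (2 * l) + h (2 * l + 1) with hn
  have hQ0 : ∀ l, 0 ≤ Q l := fun l => add_nonneg (hq _) (hq _)
  set γ : ℕ → ℝ := fun l => if l ∈ L then β else 1 with hγ
  have hγ0 : ∀ l, 0 ≤ γ l := fun l => by simp only [hγ]; split_ifs <;> [exact hβ; exact zero_le_one]
  have hterm : ∀ l ∈ range M, q (2 * l) ^ h (2 * l) / (h (2 * l)).factorial *
      (q (2 * l + 1) ^ h (2 * l + 1) / (h (2 * l + 1)).factorial) ≤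
      γ l * (Q l ^ n l / (n l).factorial) := by
    intro l _
    have h1 : (((n l).factorial : ℕ) : ℝ) =
        ((n l).choose (h (2 * l)) : ℝ) * (h (2 * l)).factorial * (h (2 * l + 1)).factorial := by
      have := Nat.choose_mul_factorial_mul_factorial
        (Nat.le_add_right (h (2 * l)) (h (2 * l + 1)))
      rw [Nat.add_sub_cancel_left] at this
      simp only [hn]
      exact_mod_cast this.symm
    have f1 : ((h (2 * l)).factorial : ℝ) ≠ 0 := by exact_mod_cast (Nat.factorial_ne_zero _)
    have f2 : ((h (2 * l + 1)).factorial : ℝ) ≠ 0 := by exact_mod_cast (Nat.factorial_ne_zero _)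
    have f3 : (0 : ℝ) < ((n l).factorial : ℝ) := by exact_mod_cast (Nat.factorial_pos _)
    have h2 : q (2 * l) ^ h (2 * l) / (h (2 * l)).factorial *
        (q (2 * l + 1) ^ h (2 * l + 1) / (h (2 * l + 1)).factorial) =
        (((n l).choose (h (2 * l)) : ℝ) * q (2 * l) ^ h (2 * l) * q (2 * l + 1) ^ h (2 * l + 1)) /
          (n l).factorial := by
      rw [h1]
      have f4 : ((n l).choose (h (2 * l)) : ℝ) ≠ 0 := by
        have : 0 < (n l).choose (h (2 * l)) := Nat.choose_pos (by simp only [hn]; omega)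
        exact_mod_cast this.ne'
      field_simp
    rw [h2, mul_div_assoc']
    refine div_le_div_of_nonneg_right ?_ f3.le
    by_cases hl : l ∈ L
    · simp only [hγ, if_pos hl]
      exact hb l hl
    · simp only [hγ, if_neg hl, one_mul]
      exact binom_term_le (hq _) (hq _) _ _
  have hprod : ∏ l ∈ range M, (q (2 * l) ^ h (2 * l) / (h (2 * l)).factorial *
      (q (2 * l + 1) ^ h (2 * l + 1) / (h (2 * l + 1)).factorial)) ≤
      ∏ l ∈ range M, (γ l * (Q l ^ n l / (n l).factorial)) := by
    refine prod_le_prod (fun l _ => ?_) hterm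
    have := hq (2 * l)
    have := hq (2 * l + 1)
    positivity
  have hmn : ∑ l ∈ range M, n l = m := by
    rw [← hm, sum_range_two_mul]
  have hγprod : ∏ l ∈ range M, γ l = β ^ L.card := by
    rw [hγ, prod_ite, prod_const, prod_const_one, mul_one]
    congr 2
    ext l
    rw [mem_filter]
    exact ⟨fun h => h.2, fun h => ⟨hL h, h⟩⟩
  calc (m.factorial : ℝ) * ∏ l ∈ range M, (q (2 * l) ^ h (2 * l) / (h (2 * l)).factorial *
      (q (2 * l + 1) ^ h (2 * l + 1) / (h (2 * l + 1)).factorial))
      ≤ (m.factorial : ℝ) * ∏ l ∈ range M, (γ l * (Q l ^ n l / (n l).factorial)) :=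
        mul_le_mul_of_nonneg_left hprod (by positivity)
    _ = β ^ L.card * ((m.factorial : ℝ) * ∏ l ∈ range M, (Q l ^ n l / (n l).factorial)) := by
        rw [prod_mul_distrib, hγprod]; ring
    _ ≤ β ^ L.card * (∑ l ∈ range M, Q l) ^ m := by
        refine mul_le_mul_of_nonneg_left ?_ (by positivity)
        have := multi_le (range M) Q hQ0 n
        rw [hmn] at this
        exact this
    _ ≤ β ^ L.card * 1 := by
        refine mul_le_mul_of_nonneg_left ?_ (by positivity)
        refine pow_le_one₀ (sum_nonneg fun l _ => hQ0 l) ?_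
        rw [← sum_range_two_mul]
        exact hsum
    _ = β ^ L.card := mul_one _

variable {α β : Type*}

/-- sum over random subsets of a function of the cardinality -/
theorem Ex_card (p : ℝ) (X : Finset α) (g : ℕ → ℝ) :
    Ex p X (fun S => g S.card) = ∑ i ∈ range (X.card + 1), bb X.card p i * g i := by
  unfold Ex bw
  rw [sum_powerset_apply_card (fun k => p ^ k * (1 - p) ^ (X.card - k) * g k)]
  refine sum_congr rfl fun i _ => ?_
  unfold bb
  rw [nsmul_eq_mul]
  ring

theorem Ex_union' {γ : Type*} (p : ℝ) {U U₁ U₂ : Finset γ} (hU : ∀ z, z ∈ U ↔ z ∈ U₁ ∨ z ∈ U₂)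
    (h : Disjoint U₁ U₂) (f : Finset γ → ℝ) :
    Ex p U f = Ex p U₁ (fun S₁ => Ex p U₂ (fun S₂ => f (S₁ ∪ S₂))) := by
  have e : U = U₁ ∪ U₂ := by
    ext z
    rw [hU, mem_union]
  rw [e, Ex_union p h]

theorem mem_un {γ : Type*} (S₁ S₂ : Finset γ) (z : γ) : z ∈ S₁ ∪ S₂ ↔ z ∈ S₁ ∨ z ∈ S₂ :=
  mem_union

/-- row sum -/
noncomputable def rs (S : Finset (α × β)) (a : α) : ℕ := (S.filter fun z => z.1 = a).card

/-- the event that the row sums have histogram `h` -/
def Ev (A : Finset α) (h : ℕ → ℕ) (S : Finset (α × β)) : Prop :=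
  ∀ i, (A.filter fun a => rs S a = i).card = h i

theorem rs_union_left {A : Finset α} {a : α} (ha : a ∉ A) {X : Finset β}
    {S S₁ S₂ : Finset (α × β)} (hS : ∀ z, z ∈ S ↔ z ∈ S₁ ∨ z ∈ S₂)
    (h1 : S₁ ⊆ {a} ×ˢ X) (h2 : S₂ ⊆ A ×ˢ X) : rs S a = S₁.card := by
  unfold rs
  congr 1
  ext z
  simp only [mem_filter, hS]
  constructor
  · rintro ⟨hz | hz, hza⟩
    · exact hz
    · exfalso
      have := mem_product.mp (h2 hz)
      rw [hza] at this
      exact ha this.1
  · intro hz
    exact ⟨Or.inl hz, mem_singleton.mp (mem_product.mp (h1 hz)).1⟩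

theorem rs_union_right {A : Finset α} {a a' : α} (ha : a ∉ A) (ha' : a' ∈ A) {X : Finset β}
    {S S₁ S₂ : Finset (α × β)} (hS : ∀ z, z ∈ S ↔ z ∈ S₁ ∨ z ∈ S₂)
    (h1 : S₁ ⊆ {a} ×ˢ X) : rs S a' = rs S₂ a' := by
  unfold rs
  congr 1
  ext z
  simp only [mem_filter, hS]
  constructor
  · rintro ⟨hz | hz, hza⟩
    · exfalso
      have := mem_singleton.mp (mem_product.mp (h1 hz)).1
      rw [hza] at this
      exact ha (this ▸ ha')
    · exact ⟨hz, hza⟩
  · rintro ⟨hz, hza⟩
    exact ⟨Or.inr hz, hza⟩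

theorem Ev_insert {A : Finset α} {a : α} (ha : a ∉ A) {X : Finset β}
    {S S₁ S₂ : Finset (α × β)} (hS : ∀ z, z ∈ S ↔ z ∈ S₁ ∨ z ∈ S₂)
    (h1 : S₁ ⊆ {a} ×ˢ X) (h2 : S₂ ⊆ A ×ˢ X) {h : ℕ → ℕ} (hE : Ev (insert a A) h S) :
    1 ≤ h S₁.card ∧ Ev A (Function.update h S₁.card (h S₁.card - 1)) S₂ := by
  have key : ∀ i, ((insert a A).filter fun a' => rs S a' = i).card =
      (if S₁.card = i then 1 else 0) + (A.filter fun a' => rs S₂ a' = i).card := by
    intro i
    rw [filter_insert, rs_union_left ha hS h1 h2]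
    have hA : (A.filter fun a' => rs S a' = i) = A.filter fun a' => rs S₂ a' = i := by
      refine filter_congr fun a' ha' => ?_
      rw [rs_union_right ha ha' hS h1]
    rw [hA]
    split_ifs with hi
    · rw [card_insert_of_notMem (fun hcon => ha (mem_filter.mp hcon).1)]
      ring
    · ring
  have h3 := hE S₁.card
  rw [key, if_pos rfl] at h3
  refine ⟨by omega, fun i => ?_⟩
  by_cases hi : i = S₁.card
  · subst hi
    rw [Function.update_self]
    omega
  · rw [Function.update_of_ne hi]
    have h4 := hE i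
    rw [key, if_neg (fun hc => hi hc.symm), zero_add] at h4
    exact h4

theorem bb_zero_of_le {N R i : ℕ} (p : ℝ) (hR : N < R) (hi : i ∉ range R) : bb N p i = 0 := by
  rw [mem_range] at hi
  exact bb_eq_zero p (by omega)

theorem TT_update {q : ℕ → ℝ} {R : ℕ} {h : ℕ → ℕ} {i m : ℕ} (hi : i ∈ range R) (hh : 1 ≤ h i) :
    q i * TT q R (Function.update h i (h i - 1)) m =
      (h i : ℝ) * ((m.factorial : ℝ) * ∏ j ∈ range R, (q j ^ h j / (h j).factorial)) := by
  unfold TT
  have h1 : ∏ j ∈ range R, (q j ^ (Function.update h i (h i - 1)) j /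
      ((Function.update h i (h i - 1)) j).factorial) =
      (q i ^ (h i - 1) / (h i - 1).factorial) *
        ∏ j ∈ (range R).erase i, (q j ^ h j / (h j).factorial) := by
    rw [← mul_prod_erase (range R) _ hi]
    rw [Function.update_self]
    congr 1
    refine prod_congr rfl fun j hj => ?_
    rw [Function.update_of_ne (ne_of_mem_erase hj)]
  rw [h1, ← mul_prod_erase (range R) (fun j => q j ^ h j / ((h j).factorial : ℝ)) hi]
  obtain ⟨k, hk⟩ := Nat.exists_eq_add_of_le hh
  rw [hk, Nat.add_sub_cancel_left, Nat.add_comm 1 k, Nat.factorial_succ, pow_succ]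
  have f2 : (k.factorial : ℝ) ≠ 0 := by exact_mod_cast (Nat.factorial_ne_zero _)
  push_cast
  field_simp

theorem sum_update_sub {R : ℕ} {h : ℕ → ℕ} {i : ℕ} (hi : i ∈ range R) (hh : 1 ≤ h i) :
    ∑ j ∈ range R, (Function.update h i (h i - 1)) j + 1 = ∑ j ∈ range R, h j := by
  rw [← add_sum_erase (range R) _ hi, ← add_sum_erase (range R) h hi, Function.update_self]
  have : ∑ j ∈ (range R).erase i, (Function.update h i (h i - 1)) j =
      ∑ j ∈ (range R).erase i, h j := by
    refine sum_congr rfl fun j hj => ?_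
    rw [Function.update_of_ne (ne_of_mem_erase hj)]
  rw [this]
  omega

/-- The distribution of the histogram. -/
theorem Pr_Ev_le {p : ℝ} (h0 : 0 ≤ p) (h1 : p ≤ 1) (X : Finset β) {R : ℕ} (hR : X.card < R)
    (A : Finset α) : ∀ h : ℕ → ℕ, Pr p (A ×ˢ X) (Ev A h) ≤
      if ∑ i ∈ range R, h i = A.card then TT (bb X.card p) R h A.card else 0 := by
  have hq : ∀ i, 0 ≤ bb X.card p i := fun i => bb_nonneg h0 h1 i
  induction A using Finset.induction_on with
  | empty =>
    intro h
    rw [empty_product]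
    have e : Pr p (∅ : Finset (α × β)) (Ev ∅ h) = ind (Ev ∅ h (∅ : Finset (α × β))) := by
      unfold Pr Ex bw
      simp
    rw [e]
    by_cases hE : Ev (∅ : Finset α) h (∅ : Finset (α × β))
    · have hz : ∀ i, h i = 0 := fun i => by
        have := hE i
        simpa using this.symm
      rw [if_pos (by simp [hz])]
      unfold TT
      simp [hz, ind_true hE]
    · rw [ind_false hE]
      split_ifs
      · exact TT_nonneg hq _ _ _
      · exact le_rfl
  | insert a A ha ih =>
    intro h
    have hdisj : Disjoint ({a} ×ˢ X) (A ×ˢ X) := by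
      rw [disjoint_left]
      rintro ⟨u, v⟩ hu hv
      have e1 := mem_singleton.mp (mem_product.mp hu).1
      have e2 := (mem_product.mp hv).1
      simp only at e1 e2
      exact ha (e1 ▸ e2)
    set G : ℕ → ℝ := fun i => if 1 ≤ h i ∧ ∑ j ∈ range R, (Function.update h i (h i - 1)) j = A.card
      then TT (bb X.card p) R (Function.update h i (h i - 1)) A.card else 0 with hG
    have hG0 : ∀ i, 0 ≤ G i := fun i => by
      simp only [hG]
      split_ifs
      · exact TT_nonneg hq _ _ _
      · exact le_rfl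
    have step1 : Pr p ((insert a A) ×ˢ X) (Ev (insert a A) h) ≤
        Ex p ({a} ×ˢ X) (fun S₁ => G S₁.card) := by
      have hprod : ∀ z, z ∈ (insert a A) ×ˢ X ↔ z ∈ ({a} : Finset α) ×ˢ X ∨ z ∈ A ×ˢ X := by
        intro z
        simp only [mem_product, mem_insert, mem_singleton]
        tauto
      unfold Pr
      rw [Ex_union' p hprod hdisj]
      refine Ex_mono h0 h1 (fun S₁ hS₁ => ?_)
      by_cases hh : 1 ≤ h S₁.card
      · refine le_trans (Ex_mono h0 h1
          (g := fun S₂ => ind (Ev A (Function.update h S₁.card (h S₁.card - 1)) S₂))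
          (fun S₂ hS₂ => ind_mono fun hE =>
            (Ev_insert ha (mem_un S₁ S₂) hS₁ hS₂ hE).2)) ((ih _).trans ?_)
        simp only [hG, hh, true_and]
        exact le_rfl
      · refine le_trans (Ex_mono h0 h1 (g := fun _ => (0 : ℝ)) (fun S₂ hS₂ => ?_)) ?_
        · rw [ind_false fun hE => hh (Ev_insert ha (mem_un S₁ S₂) hS₁ hS₂ hE).1]
        · rw [Ex_const]
          exact hG0 _
    refine step1.trans ?_
    rw [Ex_card, card_product, card_singleton, one_mul]
    have step2 : ∑ i ∈ range (X.card + 1), bb X.card p i * G i ≤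
        ∑ i ∈ range R, bb X.card p i * G i :=
      sum_le_sum_of_subset_of_nonneg (range_subset_range.mpr hR)
        (fun i _ _ => mul_nonneg (hq i) (hG0 i))
    refine step2.trans ?_
    rw [card_insert_of_notMem ha]
    by_cases hs : ∑ i ∈ range R, h i = A.card + 1
    · rw [if_pos hs]
      have h3 : ∀ i ∈ range R, bb X.card p i * G i ≤
          (h i : ℝ) * ((A.card.factorial : ℝ) * ∏ j ∈ range R, (bb X.card p j ^ h j /
            (h j).factorial)) := by
        intro i hi
        by_cases hh : 1 ≤ h i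
        · have hc : ∑ j ∈ range R, (Function.update h i (h i - 1)) j = A.card := by
            have := sum_update_sub hi hh
            omega
          simp only [hG, hh, hc, and_self, if_true]
          rw [TT_update hi hh]
        · simp only [hG, hh, false_and, if_false, mul_zero]
          refine mul_nonneg (by positivity) (mul_nonneg (by positivity) (prod_nonneg fun j _ => ?_))
          have := hq j
          positivity
      refine (sum_le_sum h3).trans ?_
      rw [← sum_mul]
      unfold TT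
      rw [Nat.factorial_succ]
      have h4 : ∑ i ∈ range R, (h i : ℝ) = (A.card : ℝ) + 1 := by exact_mod_cast hs
      rw [h4]
      push_cast
      rw [mul_assoc]
    · rw [if_neg hs]
      refine (sum_le_sum (g := fun _ => (0 : ℝ)) fun i hi => ?_).trans (by simp)
      have : G i = 0 := by
        simp only [hG]
        rw [if_neg]
        rintro ⟨hh, hc⟩
        have := sum_update_sub hi hh
        omega
      rw [this, mul_zero]

end Pool.Agent.H82.Shot
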