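import Mathlib
import Pool.Agent.H82.Shot.Hist

/-!
# Anti-concentration of the histogram: explicit bound
-/

set_option autoImplicit false

open Finset Classical

namespace Pool.Agent.H82.Shot

open Pool.Agent.H90.Shot

/-- the multinomial probability is at most a binomial one -/
theorem TT_le_bb {q : ℕ → ℝ} (hq : ∀ i, 0 ≤ q i) (R : ℕ) (hsum : ∑ i ∈ range R, q i ≤ 1)
    (h : ℕ → ℕ) {m : ℕ} (hm : ∑ i ∈ range R, h i = m) {s : Finset ℕ} (hs : s ⊆ range R) :
    TT q R h m ≤ bb m (∑ i ∈ s, q i) (∑ i ∈ s, h i) := by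
  unfold TT bb
  set n := ∑ i ∈ s, h i with hn
  set n' := ∑ i ∈ range R \ s, h i with hn'
  have hnn : n + n' = m := by
    rw [← hm, hn, hn', add_comm]
    exact sum_sdiff hs
  have hsub : m - n = n' := by omega
  rw [hsub]
  have h1 : ((m.factorial : ℕ) : ℝ) = (m.choose n : ℝ) * n.factorial * n'.factorial := by
    have := Nat.choose_mul_factorial_mul_factorial (show n ≤ m by omega)
    rw [hsub] at this
    exact_mod_cast this.symm
  have h2 : ∏ i ∈ range R, (q i ^ h i / (h i).factorial) =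
      (∏ i ∈ s, (q i ^ h i / (h i).factorial)) *
        ∏ i ∈ range R \ s, (q i ^ h i / (h i).factorial) := by
    rw [mul_comm]
    exact (prod_sdiff hs).symm
  have h3 := multi_le s q hq h
  have h4 := multi_le (range R \ s) q hq h
  have hs0 : 0 ≤ ∑ i ∈ s, q i := sum_nonneg fun i _ => hq i
  have hs1 : 0 ≤ ∑ i ∈ range R \ s, q i := sum_nonneg fun i _ => hq i
  have h5 : ∑ i ∈ range R \ s, q i ≤ 1 - ∑ i ∈ s, q i := by
    have := sum_sdiff (f := q) hs
    linarith
  have h6 : (n'.factorial : ℝ) * ∏ i ∈ range R \ s, (q i ^ h i / (h i).factorial) ≤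
      (1 - ∑ i ∈ s, q i) ^ n' :=
    h4.trans (pow_le_pow_left₀ hs1 h5 _)
  have hp : ∀ t : Finset ℕ, 0 ≤ ∏ i ∈ t, (q i ^ h i / ((h i).factorial : ℝ)) := by
    intro t
    refine prod_nonneg fun i _ => ?_
    have := hq i
    positivity
  rw [h1, h2]
  calc (m.choose n : ℝ) * n.factorial * n'.factorial *
        ((∏ i ∈ s, (q i ^ h i / (h i).factorial)) *
          ∏ i ∈ range R \ s, (q i ^ h i / (h i).factorial))
      = (m.choose n : ℝ) * ((n.factorial : ℝ) * ∏ i ∈ s, (q i ^ h i / (h i).factorial)) *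
        ((n'.factorial : ℝ) * ∏ i ∈ range R \ s, (q i ^ h i / (h i).factorial)) := by ring
    _ ≤ (m.choose n : ℝ) * (∑ i ∈ s, q i) ^ n * (1 - ∑ i ∈ s, q i) ^ n' := by
        refine mul_le_mul (mul_le_mul_of_nonneg_left h3 (by positivity)) h6 ?_ (by positivity)
        exact mul_nonneg (by positivity) (hp _)

theorem Pr_card_eq (p : ℝ) (U : Finset ℕ) (k : ℕ) :
    Pr p U (fun S => S.card = k) = bb U.card p k := by
  unfold Pr
  rw [Ex_card p U (fun i => ind (i = k))]
  by_cases hk : k ∈ range (U.card + 1)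
  · rw [sum_eq_single k]
    · simp [ind]
    · intro i _ hi
      simp [ind, hi]
    · intro h
      exact absurd hk h
  · rw [bb_eq_zero p (by rw [mem_range] at hk; omega)]
    refine sum_eq_zero fun i hi => ?_
    have : i ≠ k := fun h => hk (h ▸ hi)
    simp [ind, this]

theorem card_inter_le' {γ : Type*} (S U : Finset γ) : (S ∩ U).card ≤ S.card :=
  card_le_card inter_subset_left

theorem bb_lower_tail {m : ℕ} {t : ℝ} (h0 : 0 ≤ t) (h1 : t ≤ 1) {k : ℕ}
    (hk : (k : ℝ) ≤ t * m / 2) : bb m t k ≤ Real.exp (-(t * m / 8)) := by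
  have h2 := Pr_card_le h0 h1 (subset_refl (range m))
  rw [card_range] at h2
  refine le_trans ?_ h2
  have h3 := Pr_card_eq t (range m) k
  rw [card_range] at h3
  rw [← h3]
  refine Pr_mono h0 h1 (fun S hS hc => ?_)
  refine le_trans ?_ hk
  rw [← hc]
  exact Nat.cast_le.mpr (card_inter_le' S (range m))

theorem pair_bound {x y ρ : ℝ} (hρ : 0 < ρ) (hx : ρ ≤ x) (hy : ρ ≤ y) {m a b : ℕ} (hm : 0 < m)
    (hn : (x + y) * m / 2 < (a : ℝ) + b + 1) :
    ((a + b).choose a : ℝ) * x ^ a * y ^ b ≤ (8 / √(m * ρ)) * (x + y) ^ (a + b) := by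
  have hx0 : 0 < x := lt_of_lt_of_le hρ hx
  have hy0 : 0 < y := lt_of_lt_of_le hρ hy
  have hxy : 0 < x + y := by linarith
  have hm0 : (0 : ℝ) < m := by exact_mod_cast hm
  set t : ℝ := x / (x + y) with ht
  have ht1 : 1 - t = y / (x + y) := by rw [ht]; field_simp; ring
  have ht0 : 0 < t := by positivity
  have ht2 : t < 1 := by
    have : 0 < 1 - t := by rw [ht1]; positivity
    linarith
  have e1 : ((a + b).choose a : ℝ) * x ^ a * y ^ b = bb (a + b) t a * (x + y) ^ (a + b) := by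
    unfold bb
    rw [ht1, ht, Nat.add_sub_cancel_left, pow_add, div_pow, div_pow]
    field_simp
  rw [e1]
  refine mul_le_mul_of_nonneg_right ?_ (by positivity)
  set s : ℝ := (((a + b : ℕ) : ℝ) + 1) * t * (1 - t) with hs
  have hs0 : 0 < s := by
    rw [hs, ht1]
    positivity
  refine (bb_le ht0.le ht2.le a hs hs0).trans ?_
  have hmρ : 0 < (m : ℝ) * ρ := by positivity
  have hs4 : (m : ℝ) * ρ / 4 ≤ s := by
    have e2 : s = ((a : ℝ) + b + 1) * (x * y) / (x + y) ^ 2 := by
      rw [hs, ht1, ht]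
      push_cast
      field_simp
    rw [e2, le_div_iff₀ (by positivity)]
    have h1 : (x + y) * m / 2 * (x * y) ≤ ((a : ℝ) + b + 1) * (x * y) :=
      mul_le_mul_of_nonneg_right hn.le (by positivity)
    have h2 : ρ * (x + y) ≤ 2 * (x * y) := by nlinarith
    have h3 : (m : ℝ) * (x + y) / 4 * (ρ * (x + y)) ≤ (m : ℝ) * (x + y) / 4 * (2 * (x * y)) :=
      mul_le_mul_of_nonneg_left h2 (by positivity)
    nlinarith
  have hsq : √((m : ℝ) * ρ) / 2 ≤ √s := by
    have : √((m : ℝ) * ρ / 4) = √((m : ℝ) * ρ) / 2 := by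
      rw [Real.sqrt_div hmρ.le]
      congr 1
      rw [show (4 : ℝ) = 2 ^ 2 by norm_num]
      exact Real.sqrt_sq (by norm_num)
    rw [← this]
    exact Real.sqrt_le_sqrt hs4
  have hpos : 0 < √((m : ℝ) * ρ) := Real.sqrt_pos.mpr hmρ
  calc 4 / √s ≤ 4 / (√((m : ℝ) * ρ) / 2) := by
        refine div_le_div_of_nonneg_left (by norm_num) (by positivity) hsq
    _ = 8 / √((m : ℝ) * ρ) := by field_simp; norm_num

variable {α β : Type*}

/-- Anti-concentration of the histogram of the row sums. -/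
theorem hist_bound {p : ℝ} (h0 : 0 ≤ p) (h1 : p ≤ 1) (A : Finset α) (X : Finset β) {M : ℕ}
    (hM : X.card < 2 * M) (L : Finset ℕ) (hL : L ⊆ range M) {ρ : ℝ} (hρ : 0 < ρ)
    (hlow : ∀ l ∈ L, ρ ≤ bb X.card p (2 * l) ∧ ρ ≤ bb X.card p (2 * l + 1)) (h : ℕ → ℕ) :
    Pr p (A ×ˢ X) (Ev A h) ≤
      Real.exp (-(A.card * ρ / 4)) + (8 / √(A.card * ρ)) ^ L.card := by
  have hq : ∀ i, 0 ≤ bb X.card p i := fun i => bb_nonneg h0 h1 i
  have hsum : ∑ i ∈ range (2 * M), bb X.card p i ≤ 1 := bb_sum_le h0 h1 _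
  have hpow : 0 ≤ (8 / √((A.card : ℝ) * ρ)) ^ L.card := by positivity
  rcases Nat.eq_zero_or_pos A.card with hA | hA
  · have : Real.exp (-(A.card * ρ / 4)) = 1 := by rw [hA]; simp
    rw [this]
    have := Pr_le_one h0 h1 (A ×ˢ X) (Ev A h)
    linarith
  refine (Pr_Ev_le h0 h1 X hM A h).trans ?_
  split_ifs with hs
  · by_cases hcase : ∃ l ∈ L, ((h (2 * l) + h (2 * l + 1) : ℕ) : ℝ) ≤
        (bb X.card p (2 * l) + bb X.card p (2 * l + 1)) * A.card / 2
    · obtain ⟨l, hl, hle⟩ := hcase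
      have hlM := mem_range.mp (hL hl)
      have hsub : ({2 * l, 2 * l + 1} : Finset ℕ) ⊆ range (2 * M) := by
        intro i hi
        rw [mem_insert, mem_singleton] at hi
        rw [mem_range]
        omega
      have h2 := TT_le_bb hq (2 * M) hsum h hs hsub
      have hne : (2 * l) ≠ 2 * l + 1 := by omega
      rw [sum_pair hne, sum_pair hne] at h2
      have hx := (hlow l hl).1
      have hy := (hlow l hl).2
      have hs1 : bb X.card p (2 * l) + bb X.card p (2 * l + 1) ≤ 1 := by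
        have := bb_sum_le (m := X.card) h0 h1 {2 * l, 2 * l + 1}
        rwa [sum_pair hne] at this
      have h3 := bb_lower_tail (by linarith) hs1 hle
      refine (h2.trans h3).trans ?_
      have h4 : Real.exp (-((bb X.card p (2 * l) + bb X.card p (2 * l + 1)) * A.card / 8)) ≤
          Real.exp (-(A.card * ρ / 4)) := by
        refine Real.exp_le_exp.mpr ?_
        have h5 : (0 : ℝ) ≤ A.card := Nat.cast_nonneg _
        nlinarith
      linarith
    · push Not at hcase
      have h2 := TT_le (β := 8 / √((A.card : ℝ) * ρ)) hq M hsum h hs L hL (by positivity)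
        (fun l hl => pair_bound hρ (hlow l hl).1 (hlow l hl).2 hA (by
          have := hcase l hl
          push_cast at this
          linarith))
      have := Real.exp_pos (-((A.card : ℝ) * ρ / 4))
      linarith
  · have := Real.exp_pos (-((A.card : ℝ) * ρ / 4))
    linarith

end Pool.Agent.H82.Shot
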