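import Mathlib
import Pool.Agent.H82.Shot.HistB

/-!
# Anti-concentration of the histogram: choice of the classes
-/

set_option autoImplicit false

open Finset Classical

namespace Pool.Agent.H82.Shot

open Pool.Agent.H90.Shot

theorem bb_large {N : ℕ} {p : ℝ} (h0 : 0 < p) (hp : p ≤ 1 / 2)
    (hs : 100000 ≤ ((N : ℝ) + 1) * p * (1 - p)) :
    ∃ l₀ : ℕ, ∀ l, l₀ ≤ l → l < l₀ + 100 →
      9 / (100 * √(N * p)) ≤ bb N p (2 * l) ∧ 9 / (100 * √(N * p)) ≤ bb N p (2 * l + 1) := by
  set k := md N p with hk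
  have h1 : p < 1 := by linarith
  set s : ℝ := ((N : ℝ) + 1) * p * (1 - p) with hsdef
  set s' : ℝ := (N : ℝ) * p * (1 - p) with hs'def
  have hs0 : 0 < s := by linarith
  have hs' : 1 ≤ s' := by
    have e : s = s' + p * (1 - p) := by rw [hsdef, hs'def]; ring
    nlinarith
  have hB := mode_lb (m := N) h0.le h1 hs'def hs'
  have hNp : s' ≤ N * p := by
    rw [hs'def]
    have : 0 ≤ (N : ℝ) * p := by positivity
    nlinarith
  have hNp1 : 1 ≤ (N : ℝ) * p := by linarith
  have hsq : √s' ≤ √((N : ℝ) * p) := Real.sqrt_le_sqrt hNp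
  have hsq0 : 0 < √s' := Real.sqrt_pos.mpr (by linarith)
  have hB2 : 3 / (20 * √((N : ℝ) * p)) ≤ bb N p k := by
    refine le_trans ?_ hB
    refine div_le_div_of_nonneg_left (by norm_num) (by positivity) ?_
    linarith
  have hsqN : 0 < √((N : ℝ) * p) := lt_of_lt_of_le hsq0 hsq
  have key : ∀ j : ℕ, j ≤ 200 → 9 / (100 * √((N : ℝ) * p)) ≤ bb N p (k + j) := by
    intro j hj
    have hj' : (j : ℝ) ≤ 200 := by exact_mod_cast hj
    have h3 := bb_near_mode (J := 200) h0.le h1 hsdef hs0 (by norm_num) j hj' (by linarith)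
    refine le_trans ?_ h3
    have h4 : (j : ℝ) * 200 / s ≤ 2 / 5 := by
      rw [div_le_iff₀ hs0]
      nlinarith
    have h5 : (0 : ℝ) ≤ 3 / (20 * √((N : ℝ) * p)) := by positivity
    calc 9 / (100 * √((N : ℝ) * p)) = (3 / 5) * (3 / (20 * √((N : ℝ) * p))) := by
          field_simp; norm_num
      _ ≤ (3 / 5) * bb N p k := by linarith
      _ ≤ (1 - j * 200 / s) * bb N p k :=
          mul_le_mul_of_nonneg_right (by linarith) (by linarith)
  refine ⟨(k + 1) / 2, fun l hl1 hl2 => ⟨?_, ?_⟩⟩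
  · obtain ⟨j, hj⟩ := Nat.exists_eq_add_of_le (show k ≤ 2 * l by omega)
    rw [hj]
    exact key j (by omega)
  · obtain ⟨j, hj⟩ := Nat.exists_eq_add_of_le (show k ≤ 2 * l + 1 by omega)
    rw [hj]
    exact key j (by omega)

theorem exp_neg_two_le {p : ℝ} (h0 : 0 ≤ p) (hp : p ≤ 1 / 2) : Real.exp (-(2 * p)) ≤ 1 - p := by
  have h1 : 0 < 1 - p := by linarith
  have h2 := Real.add_one_le_exp (2 * p)
  have h3 : 1 / (1 - p) ≤ 2 * p + 1 := by
    rw [div_le_iff₀ h1]
    nlinarith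
  rw [Real.exp_neg]
  rw [inv_le_comm₀ (Real.exp_pos _) h1]
  rw [← one_div]
  linarith

theorem bb_small {N : ℕ} {p : ℝ} (h0 : 0 < p) (hp : p ≤ 1 / 2) (hN : 400 ≤ N)
    (hs : ((N : ℝ) + 1) * p * (1 - p) < 100000) {i : ℕ} (hi : i ≤ 199) :
    (min 1 (N * p) / 400) ^ 199 * Real.exp (-400000) ≤ bb N p i := by
  have h1 : 0 < 1 - p := by linarith
  have hNp : (N : ℝ) * p ≤ 200000 := by nlinarith
  have hNp0 : 0 ≤ (N : ℝ) * p := by positivity
  have hN' : (400 : ℝ) ≤ N := by exact_mod_cast hN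
  have e1 : Real.exp (-400000) ≤ (1 - p) ^ (N - i) := by
    calc Real.exp (-400000) ≤ Real.exp (-(2 * p)) ^ N := by
          rw [← Real.exp_nat_mul]
          refine Real.exp_le_exp.mpr ?_
          nlinarith
      _ ≤ (1 - p) ^ N := pow_le_pow_left₀ (Real.exp_pos _).le (exp_neg_two_le h0.le hp) _
      _ ≤ (1 - p) ^ (N - i) := pow_le_pow_of_le_one h1.le (by linarith) (Nat.sub_le _ _)
  have e2 : (N * p / 400) ^ i ≤ (N.choose i : ℝ) * p ^ i := by
    have h3 : (((N + 1 - i : ℕ) : ℝ) ^ i) / (i.factorial : ℝ) ≤ (N.choose i : ℝ) := by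
      exact_mod_cast Nat.pow_le_choose (α := ℝ) i N
    have h4 : (N : ℝ) / 2 ≤ ((N + 1 - i : ℕ) : ℝ) := by
      rw [Nat.cast_sub (by omega)]
      have : (i : ℝ) ≤ 199 := by exact_mod_cast hi
      push_cast
      linarith
    have h5 : (i.factorial : ℝ) ≤ 200 ^ i := by
      have : i.factorial ≤ i ^ i := Nat.factorial_le_pow i
      have h6 : i ^ i ≤ 200 ^ i := Nat.pow_le_pow_left (by omega) i
      exact_mod_cast this.trans h6
    have h6 : (0 : ℝ) < i.factorial := by exact_mod_cast Nat.factorial_pos i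
    calc (N * p / 400) ^ i = ((N : ℝ) / 2) ^ i / 200 ^ i * p ^ i := by
          rw [← div_pow, ← mul_pow]
          congr 1
          ring
      _ ≤ (((N + 1 - i : ℕ) : ℝ) ^ i) / (i.factorial : ℝ) * p ^ i := by
          refine mul_le_mul_of_nonneg_right ?_ (by positivity)
          refine div_le_div₀ (by positivity) (pow_le_pow_left₀ (by positivity) h4 _) h6 h5
      _ ≤ (N.choose i : ℝ) * p ^ i := mul_le_mul_of_nonneg_right h3 (by positivity)
  have hm0 : 0 ≤ min 1 ((N : ℝ) * p) / 400 := by positivity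
  have hm1 : min 1 ((N : ℝ) * p) / 400 ≤ 1 := by
    have := min_le_left 1 ((N : ℝ) * p)
    linarith
  have e3 : (min 1 (N * p) / 400) ^ 199 ≤ (N * p / 400) ^ i := by
    calc (min 1 ((N : ℝ) * p) / 400) ^ 199 ≤ (min 1 ((N : ℝ) * p) / 400) ^ i :=
          pow_le_pow_of_le_one hm0 hm1 hi
      _ ≤ (N * p / 400) ^ i := by
          refine pow_le_pow_left₀ hm0 ?_ _
          have := min_le_right 1 ((N : ℝ) * p)
          linarith
  unfold bb
  refine mul_le_mul (e3.trans e2) e1 (Real.exp_pos _).le (by positivity)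

variable {α β : Type*}

theorem hist_comb {p : ℝ} (h0 : 0 < p) (hp : p ≤ 1 / 2) (A : Finset α) (X : Finset β)
    (hX : 400 ≤ X.card) {r : ℝ} (hr : 0 < r) (hr1 : r ≤ 9 / (100 * √(X.card * p)))
    (hr2 : r ≤ (min 1 (X.card * p) / 400) ^ 199 * Real.exp (-400000)) (h : ℕ → ℕ) :
    Pr p (A ×ˢ X) (Ev A h) ≤
      Real.exp (-(A.card * r / 4)) + (8 / √(A.card * r)) ^ 100 := by
  by_cases hs : 100000 ≤ ((X.card : ℝ) + 1) * p * (1 - p)
  · obtain ⟨l₀, hl₀⟩ := bb_large h0 hp hs
    have := hist_bound h0.le (by linarith) A X (M := X.card + 1 + l₀ + 100) (by omega)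
      (Finset.Ico l₀ (l₀ + 100)) (fun l hl => by
        rw [mem_Ico] at hl
        rw [mem_range]
        omega) hr (fun l hl => by
        rw [mem_Ico] at hl
        have := hl₀ l hl.1 hl.2
        exact ⟨hr1.trans this.1, hr1.trans this.2⟩) h
    rwa [Nat.card_Ico, Nat.add_sub_cancel_left] at this
  · push Not at hs
    have := hist_bound h0.le (by linarith) A X (M := X.card + 100) (by omega)
      (Finset.range 100) (fun l hl => by
        rw [mem_range] at hl ⊢
        omega) hr (fun l hl => by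
        rw [mem_range] at hl
        exact ⟨hr2.trans (bb_small h0 hp hX hs (by omega)),
          hr2.trans (bb_small h0 hp hX hs (by omega))⟩) h
    rwa [card_range] at this

end Pool.Agent.H82.Shot
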