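import Mathlib
import Pool.Agent.H82.Shot.HistC

/-!
# Anti-concentration of the histogram: asymptotic form
-/

set_option autoImplicit false

open Finset Classical Filter

namespace Pool.Agent.H82.Shot

open Pool.Agent.H90.Shot

theorem ev_log : ∀ᶠ n : ℕ in atTop, Real.log n ≤ (n : ℝ) ^ (1 / 100000 : ℝ) := by
  have h := (isLittleO_log_rpow_atTop (show (0 : ℝ) < 1 / 100000 by norm_num)).bound
    (show (0 : ℝ) < 1 by norm_num)
  have h2 := tendsto_natCast_atTop_atTop (R := ℝ)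
  filter_upwards [h2.eventually h, eventually_ge_atTop 1] with n hn h1
  rw [one_mul, Real.norm_eq_abs, Real.norm_eq_abs,
    abs_of_nonneg (show 0 ≤ (n : ℝ) ^ (1 / 100000 : ℝ) by positivity)] at hn
  exact (le_abs_self _).trans hn

theorem ev_const (K : ℝ) : ∀ᶠ n : ℕ in atTop, K ≤ (n : ℝ) ^ (1 / 100000 : ℝ) := by
  have h := tendsto_rpow_atTop (show (0 : ℝ) < 1 / 100000 by norm_num)
  have h2 := h.comp (tendsto_natCast_atTop_atTop (R := ℝ))
  exact h2.eventually_ge_atTop K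

theorem ev_ge (K : ℝ) : ∀ᶠ n : ℕ in atTop, K ≤ (n : ℝ) :=
  (tendsto_natCast_atTop_atTop (R := ℝ)).eventually_ge_atTop K

theorem ev_exp : ∀ᶠ n : ℕ in atTop,
    Real.exp (-((n : ℝ) ^ (4 / 25 : ℝ) / 4)) ≤ (n : ℝ) ^ (-7 : ℝ) / 2 := by
  have h := tendsto_rpow_mul_exp_neg_mul_atTop_nhds_zero (175 / 4) (1 / 4) (by norm_num)
  have h3 := (tendsto_rpow_atTop (show (0 : ℝ) < 4 / 25 by norm_num)).comp
    (tendsto_natCast_atTop_atTop (R := ℝ))
  have h4 := h.comp h3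
  have h5 := h4.eventually (gt_mem_nhds (show (0 : ℝ) < 1 / 2 by norm_num))
  filter_upwards [h5, eventually_ge_atTop 1] with n hn h1
  have hn0 : (0 : ℝ) < n := by exact_mod_cast (show 0 < n by omega)
  simp only [Function.comp] at hn
  rw [← Real.rpow_mul hn0.le] at hn
  rw [show (4 / 25 : ℝ) * (175 / 4) = 7 by norm_num] at hn
  have h7 : (n : ℝ) ^ (-7 : ℝ) = 1 / (n : ℝ) ^ (7 : ℝ) := by
    rw [Real.rpow_neg hn0.le, one_div]
  rw [h7]
  have h8 : 0 < (n : ℝ) ^ (7 : ℝ) := Real.rpow_pos_of_pos hn0 _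
  have e1 : -(1 / 4 : ℝ) * (n : ℝ) ^ (4 / 25 : ℝ) = -((n : ℝ) ^ (4 / 25 : ℝ) / 4) := by ring
  rw [e1] at hn
  rw [div_div, le_div_iff₀ (by positivity)]
  linarith

theorem r1_aux {x p u m N y : ℝ} (hx0 : 0 < x) (hp0 : 0 < p) (hu : 400 ≤ u) (hNx : N ≤ x)
    (hN0 : 0 < N) (hm0 : 0 < m) (hm1 : x * p / u ^ 2 ≤ m) (hy : 0 ≤ y)
    (h2 : y * u ^ 3 ≤ √(x * p)) : y / m ≤ 9 / (100 * √(N * p)) := by
  have hxp0 : 0 < x * p := mul_pos hx0 hp0
  have hu0 : 0 < u := by linarith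
  have hNp : N * p ≤ x * p := mul_le_mul_of_nonneg_right hNx hp0.le
  have hsq0 : 0 < √(x * p) := Real.sqrt_pos.mpr hxp0
  have hsN : 0 < √(N * p) := Real.sqrt_pos.mpr (mul_pos hN0 hp0)
  have hss : √(x * p) * √(x * p) = x * p := Real.mul_self_sqrt hxp0.le
  have h1 : 9 / (100 * √(x * p)) ≤ 9 / (100 * √(N * p)) := by
    refine div_le_div_of_nonneg_left (by norm_num) (mul_pos (by norm_num) hsN) ?_
    have := Real.sqrt_le_sqrt hNp
    linarith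
  refine le_trans ?_ h1
  rw [div_le_div_iff₀ hm0 (mul_pos (by norm_num) hsq0)]
  have h3 : 9 * (x * p / u ^ 2) ≤ 9 * m := by linarith
  refine le_trans ?_ h3
  have hu2 : 0 < u ^ 2 := pow_pos hu0 2
  rw [← mul_div_assoc, le_div_iff₀ hu2]
  have h6 : 100 * u ^ 2 ≤ 9 * u ^ 3 := by
    have : u ^ 3 = u * u ^ 2 := by ring
    rw [this]
    nlinarith
  have h7 : y * (100 * u ^ 2) ≤ 9 * √(x * p) := by
    have := mul_le_mul_of_nonneg_left h6 hy
    linarith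
  have h8 := mul_le_mul_of_nonneg_right h7 hsq0.le
  calc y * (100 * √(x * p)) * u ^ 2 = y * (100 * u ^ 2) * √(x * p) := by ring
    _ ≤ 9 * √(x * p) * √(x * p) := h8
    _ = 9 * (√(x * p) * √(x * p)) := by ring
    _ = 9 * (x * p) := by rw [hss]

theorem r2_aux {x p u N : ℝ} (hx1 : 1 ≤ x) (hp1 : x ^ (-(2 / 3 : ℝ) - 1 / 10000) ≤ p)
    (hu : u = x ^ (1 / 100000 : ℝ)) (h400 : 400 ≤ u)
    (hN1 : (x * p) ^ 2 / u ^ 2 ≤ N) : x ^ (-(6567 / 100000) : ℝ) ≤ (min 1 (N * p) / 400) ^ 199 := by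
  have hx0 : 0 < x := by linarith
  have hu0 : 0 < u := by linarith
  have mono : ∀ a b : ℝ, a ≤ b → x ^ a ≤ x ^ b := fun a b hab =>
    Real.rpow_le_rpow_of_exponent_le hx1 hab
  have hp0 : 0 < p := lt_of_lt_of_le (Real.rpow_pos_of_pos hx0 _) hp1
  have u2 : u ^ 2 = x ^ (2 / 100000 : ℝ) := by
    rw [hu, ← Real.rpow_natCast, ← Real.rpow_mul hx0.le]; norm_num
  have h1 : x ^ (-(32 / 100000) : ℝ) ≤ N * p := by
    have h2 : (x * p) ^ 2 / u ^ 2 * p ≤ N * p := mul_le_mul_of_nonneg_right hN1 hp0.le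
    refine le_trans ?_ h2
    have h3 : (x ^ (-(2 / 3 : ℝ) - 1 / 10000)) ^ 3 ≤ p ^ 3 :=
      pow_le_pow_left₀ (by positivity) hp1 3
    have h4 : (x * p) ^ 2 / u ^ 2 * p = x ^ 2 * p ^ 3 / u ^ 2 := by ring
    rw [h4, le_div_iff₀ (by positivity)]
    refine le_trans ?_ (mul_le_mul_of_nonneg_left h3 (by positivity))
    have h5 : x ^ 2 = x ^ (2 : ℝ) := by rw [← Real.rpow_natCast]; norm_num
    rw [u2, h5, ← Real.rpow_natCast (x ^ (-(2 / 3 : ℝ) - 1 / 10000)), ← Real.rpow_mul hx0.le,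
      ← Real.rpow_add hx0, ← Real.rpow_add hx0]
    exact mono _ _ (by norm_num)
  have h2 : x ^ (-(32 / 100000) : ℝ) ≤ min 1 (N * p) := by
    refine le_min ?_ h1
    calc x ^ (-(32 / 100000) : ℝ) ≤ x ^ (0 : ℝ) := mono _ _ (by norm_num)
      _ = 1 := Real.rpow_zero x
  have h3 : x ^ (-(33 / 100000) : ℝ) ≤ min 1 (N * p) / 400 := by
    rw [le_div_iff₀ (by norm_num)]
    calc x ^ (-(33 / 100000) : ℝ) * 400 ≤ x ^ (-(33 / 100000) : ℝ) * u :=
          mul_le_mul_of_nonneg_left h400 (by positivity)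
      _ = x ^ (-(32 / 100000) : ℝ) := by
          rw [hu, ← Real.rpow_add hx0]
          norm_num
      _ ≤ _ := h2
  refine le_trans ?_ (pow_le_pow_left₀ (by positivity) h3 199)
  rw [← Real.rpow_natCast, ← Real.rpow_mul hx0.le]
  exact mono _ _ (by norm_num)

theorem r3_aux {x p u m E Q : ℝ} (hx1 : 1 ≤ x) (hE0 : 0 < E) (hE : E⁻¹ ≤ Real.exp (-400000))
    (hexp : E ≤ x ^ (1 / 100000 : ℝ)) (hxp : x ^ (3332 / 10000 : ℝ) ≤ x * p)
    (hm1 : x * p / u ^ 2 ≤ m) (hm0 : 0 < m) (hu : u = x ^ (1 / 100000 : ℝ))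
    (h4 : x ^ (-(6567 / 100000) : ℝ) ≤ Q) :
    x ^ (4 / 25 : ℝ) / m ≤ Q * Real.exp (-400000) := by
  have hx0 : 0 < x := by linarith
  have hu0 : 0 < u := by rw [hu]; exact Real.rpow_pos_of_pos hx0 _
  have mono : ∀ a b : ℝ, a ≤ b → x ^ a ≤ x ^ b := fun a b hab =>
    Real.rpow_le_rpow_of_exponent_le hx1 hab
  have u2 : u ^ 2 = x ^ (2 / 100000 : ℝ) := by
    rw [hu, ← Real.rpow_natCast, ← Real.rpow_mul hx0.le]; norm_num
  have h5 : x ^ (-(1 / 100000) : ℝ) ≤ Real.exp (-400000) := by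
    refine le_trans ?_ hE
    rw [Real.rpow_neg hx0.le]
    exact inv_anti₀ hE0 hexp
  have hQ : 0 ≤ Q := le_trans (Real.rpow_nonneg hx0.le _) h4
  have h6 : x ^ (-(6567 / 100000) : ℝ) * x ^ (-(1 / 100000) : ℝ) ≤ Q * Real.exp (-400000) :=
    mul_le_mul h4 h5 (Real.rpow_nonneg hx0.le _) hQ
  refine le_trans ?_ h6
  rw [← Real.rpow_add hx0, div_le_iff₀ hm0]
  have h7 : x ^ (33318 / 100000 : ℝ) ≤ m := by
    refine le_trans ?_ hm1
    rw [le_div_iff₀ (pow_pos hu0 2), u2, ← Real.rpow_add hx0]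
    refine le_trans (mono _ _ ?_) hxp
    norm_num
  refine le_trans ?_ (mul_le_mul_of_nonneg_left h7 (Real.rpow_nonneg hx0.le _))
  rw [← Real.rpow_add hx0]
  exact mono _ _ (by norm_num)

theorem fin_aux {x B a : ℝ} (hx1 : 1 ≤ x) (hB : B = 2 * 8 ^ 100) (hbig : B ≤ x)
    (hev : a ≤ x ^ (-7 : ℝ) / 2) :
    a + (8 / √(x ^ (4 / 25 : ℝ))) ^ 100 ≤ x ^ (-7 : ℝ) := by
  have hx0 : 0 < x := by linarith
  have hsq : (8 / √(x ^ (4 / 25 : ℝ))) ^ 100 = 8 ^ 100 * x ^ (-8 : ℝ) := by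
    rw [div_pow, Real.sqrt_eq_rpow, ← Real.rpow_mul hx0.le, ← Real.rpow_natCast (x ^ _),
      ← Real.rpow_mul hx0.le, div_eq_mul_inv, ← Real.rpow_neg hx0.le]
    norm_num
  rw [hsq]
  have h8 : x ^ (-8 : ℝ) = x ^ (-7 : ℝ) / x := by
    rw [show (-8 : ℝ) = -7 - 1 by norm_num, Real.rpow_sub hx0, Real.rpow_one]
  have h11 : 0 < x ^ (-7 : ℝ) := Real.rpow_pos_of_pos hx0 _
  have h9 : (8 : ℝ) ^ 100 * x ^ (-8 : ℝ) ≤ x ^ (-7 : ℝ) / 2 := by
    rw [h8, ← mul_div_assoc, div_le_div_iff₀ hx0 (by norm_num)]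
    rw [hB] at hbig
    have := mul_le_mul_of_nonneg_left hbig h11.le
    linarith
  linarith

theorem ev_exp_const : ∃ E : ℝ, 0 < E ∧ E⁻¹ ≤ Real.exp (-400000) :=
  ⟨Real.exp 400000, Real.exp_pos _, by rw [Real.exp_neg]⟩

/-- Anti-concentration of the histogram in the range (B). -/
theorem hist_asym (C₁ C₂ : ℝ) (hC₁ : 0 < C₁) (hC₂ : 0 < C₂) : ∀ᶠ n : ℕ in atTop, ∀ p : ℝ,
    (n : ℝ) ^ (-(2 / 3 : ℝ) - 1 / 10000) ≤ p → n * p ^ 2 ≤ 3 * Real.log n →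
    ∀ (A X : Finset (Fin n)) (h : ℕ → ℕ), n * p / (C₁ * Real.log n) ≤ A.card →
      (n * p) ^ 2 / (C₂ * Real.log n) ≤ X.card →
      Pr p (A ×ˢ X) (Ev A h) ≤ (n : ℝ) ^ (-7 : ℝ) := by
  obtain ⟨E, hE0, hE⟩ := ev_exp_const
  obtain ⟨B, hB⟩ : ∃ B : ℝ, B = 2 * 8 ^ 100 := ⟨_, rfl⟩
  filter_upwards [ev_log, ev_const C₁, ev_const C₂, ev_const 400, ev_const E,
    ev_exp, ev_ge B, eventually_ge_atTop 2] with n hlog hc1 hc2 h400 hexp hev hbig hn2
    p hp1 hp2 A X h hA hX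
  set x : ℝ := (n : ℝ) with hx
  set u : ℝ := x ^ (1 / 100000 : ℝ) with hu
  have hx2 : (2 : ℝ) ≤ x := by rw [hx]; exact_mod_cast hn2
  have hx0 : 0 < x := by linarith
  have hx1 : 1 ≤ x := by linarith
  have hlog0 : 0 < Real.log x := Real.log_pos (by linarith)
  have hu0 : 0 < u := Real.rpow_pos_of_pos hx0 _
  have mono : ∀ a b : ℝ, a ≤ b → x ^ a ≤ x ^ b := fun a b hab =>
    Real.rpow_le_rpow_of_exponent_le hx1 hab
  have hp0 : 0 < p := lt_of_lt_of_le (Real.rpow_pos_of_pos hx0 _) hp1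
  -- powers of `u`
  have u2 : u ^ 2 = x ^ (2 / 100000 : ℝ) := by
    rw [hu, ← Real.rpow_natCast, ← Real.rpow_mul hx0.le]; norm_num
  have u3 : u ^ 3 = x ^ (3 / 100000 : ℝ) := by
    rw [hu, ← Real.rpow_natCast, ← Real.rpow_mul hx0.le]; norm_num
  have xx : x = x ^ (1 : ℝ) := (Real.rpow_one x).symm
  -- `p ≤ 1/2`
  have hp12 : p ≤ 1 / 2 := by
    by_contra hcon
    push Not at hcon
    have h1 : x * (1 / 4) < x * p ^ 2 := by
      refine mul_lt_mul_of_pos_left ?_ hx0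
      nlinarith
    have h2 : 3 * Real.log x ≤ 3 * u := by linarith
    have h3 : x < 12 * u := by linarith
    have h4 : 12 * u ≤ u ^ 2 := by nlinarith
    have h5 : u ^ 2 ≤ x := by
      rw [u2]
      conv_rhs => rw [xx]
      exact mono _ _ (by norm_num)
    linarith
  -- lower bound for `x p`
  have hxp : x ^ (3332 / 10000 : ℝ) ≤ x * p := by
    calc x ^ (3332 / 10000 : ℝ) ≤ x ^ ((1 : ℝ) + (-(2 / 3 : ℝ) - 1 / 10000)) :=
          mono _ _ (by norm_num)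
      _ = x * x ^ (-(2 / 3 : ℝ) - 1 / 10000) := by rw [Real.rpow_add hx0, Real.rpow_one]
      _ ≤ x * p := mul_le_mul_of_nonneg_left hp1 hx0.le
  have hxp0 : 0 < x * p := by positivity
  -- lower bound for `m`
  set m : ℝ := (A.card : ℝ) with hm
  have hC1 : C₁ * Real.log x ≤ u ^ 2 := by
    rw [sq]
    exact mul_le_mul hc1 hlog hlog0.le hu0.le
  have hC2 : C₂ * Real.log x ≤ u ^ 2 := by
    rw [sq]
    exact mul_le_mul hc2 hlog hlog0.le hu0.le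
  have hm1 : x * p / u ^ 2 ≤ m := by
    refine le_trans ?_ hA
    exact div_le_div_of_nonneg_left hxp0.le (by positivity) hC1
  have hm0 : 0 < m := lt_of_lt_of_le (by positivity) hm1
  set N : ℝ := (X.card : ℝ) with hN
  have hN1 : (x * p) ^ 2 / u ^ 2 ≤ N := by
    refine le_trans ?_ hX
    exact div_le_div_of_nonneg_left (by positivity) (by positivity) hC2
  have hNx : N ≤ x := by
    rw [hN, hx]
    have : X.card ≤ n := by
      have := card_le_univ X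
      rwa [Fintype.card_fin] at this
    exact_mod_cast this
  have hN400r : (400 : ℝ) ≤ N := by
    refine h400.trans (le_trans ?_ hN1)
    rw [le_div_iff₀ (by positivity)]
    have h2 : (x ^ (3332 / 10000 : ℝ)) ^ 2 ≤ (x * p) ^ 2 :=
      pow_le_pow_left₀ (by positivity) hxp 2
    refine le_trans ?_ h2
    rw [show u * u ^ 2 = u ^ 3 by ring, u3, ← Real.rpow_natCast, ← Real.rpow_mul hx0.le]
    exact mono _ _ (by norm_num)
  have hN0 : 0 < N := lt_of_lt_of_le (by positivity) hN1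
  -- the parameter `r`
  set r : ℝ := x ^ (4 / 25 : ℝ) / m with hr
  have hr0 : 0 < r := div_pos (Real.rpow_pos_of_pos hx0 _) hm0
  have hmr : m * r = x ^ (4 / 25 : ℝ) := by rw [hr]; field_simp
  have hr1 : r ≤ 9 / (100 * √(N * p)) := by
    refine r1_aux hx0 hp0 h400 hNx hN0 hm0 hm1 (Real.rpow_nonneg hx0.le _) ?_
    refine Real.le_sqrt_of_sq_le ?_
    refine le_trans ?_ hxp
    rw [u3, ← Real.rpow_add hx0, ← Real.rpow_natCast, ← Real.rpow_mul hx0.le]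
    exact mono _ _ (by norm_num)
  have hr2 : r ≤ (min 1 (N * p) / 400) ^ 199 * Real.exp (-400000) := by
    have h4 : x ^ (-(6567 / 100000) : ℝ) ≤ (min 1 (N * p) / 400) ^ 199 :=
      r2_aux hx1 hp1 hu h400 hN1
    exact r3_aux hx1 hE0 hE hexp hxp hm1 hm0 hu h4
  have hN400 : 400 ≤ X.card := by
    rw [hN] at hN400r
    exact_mod_cast hN400r
  have hfin := hist_comb hp0 hp12 A X hN400 hr0 hr1 hr2 h
  refine hfin.trans ?_
  rw [hmr]
  exact fin_aux hx1 hB hbig hev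

end Pool.Agent.H82.Shot
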