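import Mathlib
import Pool.Agent.H82.Shot.FingerB
import Pool.Agent.H82.Shot.HistD

/-!
# Fingerprints of darts: the probability of a bad pair
-/

set_option autoImplicit false

open Finset Classical

namespace Pool.Agent.H82.Shot

open Pool.Agent.H90.Shot

theorem resample_le {γ : Type*} {p : ℝ} (h0 : 0 ≤ p) (h1 : p ≤ 1) (U : Finset γ)
    (Z : Finset γ → Finset γ) (hZU : ∀ E, E ⊆ U → Z E ⊆ U)
    (hZ : ∀ E E' S, E ⊆ U → S ⊆ Z E → (∀ e, e ∈ E' ↔ (e ∈ E ∧ e ∉ Z E) ∨ e ∈ S) → Z E' = Z E)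
    {P : Finset γ → Prop} {η : ℝ}
    (h : ∀ E, E ⊆ U → ∀ F : Finset γ → Finset γ,
      (∀ S e, e ∈ F S ↔ (e ∈ E ∧ e ∉ Z E) ∨ e ∈ S) → Pr p (Z E) (fun S => P (F S)) ≤ η) :
    Pr p U P ≤ η := by
  refine Pr_resample_le h0 h1 U Z hZU (fun E hE S hS => ?_) (fun E hE => ?_)
  · refine hZ E _ S hE hS (fun e => ?_)
    rw [mem_union, mem_sdiff]
  · refine h E hE (fun S => (E \ Z E) ∪ S) (fun S e => ?_)
    rw [mem_union, mem_sdiff]

theorem rs_bij {α β : Type*} (S : Finset (α × β)) (a : α) (Y : Finset β)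
    (hY : ∀ y, y ∈ Y ↔ (a, y) ∈ S) : Y.card = rs S a := by
  unfold rs
  symm
  refine Finset.card_bij (fun z _ => z.2) ?_ ?_ ?_
  · rintro ⟨a', y⟩ hz
    rw [mem_filter] at hz
    obtain ⟨h1, h2⟩ := hz
    simp only at h2
    subst h2
    exact (hY y).mpr h1
  · rintro ⟨a1, y1⟩ h1 ⟨a2, y2⟩ h2 h
    rw [mem_filter] at h1 h2
    simp only at h h1 h2
    rw [h, h1.2, h2.2]
  · intro y hy
    refine ⟨(a, y), ?_, rfl⟩
    rw [mem_filter]
    exact ⟨(hY y).mp hy, rfl⟩

theorem Ex_image {α β : Type*} (p : ℝ) {U : Finset α} {U' : Finset β} {φ : α → β}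
    (hU' : ∀ e, e ∈ U' ↔ ∃ z ∈ U, φ z = e) (hinj : Set.InjOn φ U) (f : Finset β → ℝ) :
    ∃ F : Finset α → Finset β, (∀ S e, e ∈ F S ↔ ∃ z ∈ S, φ z = e) ∧
      Ex p U' f = Ex p U (fun S => f (F S)) := by
  refine ⟨fun S => S.image φ, fun S e => mem_image, ?_⟩
  unfold Ex
  symm
  have hcard : U'.card = U.card := by
    have : U' = U.image φ := by
      ext e
      rw [hU', mem_image]
    rw [this, card_image_of_injOn hinj]
  refine Finset.sum_bij (fun S _ => S.image φ) ?_ ?_ ?_ ?_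
  · intro S hS
    rw [mem_powerset] at hS ⊢
    intro e he
    obtain ⟨z, hz, rfl⟩ := mem_image.mp he
    exact (hU' _).mpr ⟨z, hS hz, rfl⟩
  · intro S hS S' hS' h
    rw [mem_powerset] at hS hS'
    ext z
    constructor
    · intro hz
      have : φ z ∈ S'.image φ := by rw [← h]; exact mem_image_of_mem _ hz
      obtain ⟨z', hz', he⟩ := mem_image.mp this
      rwa [← hinj (hS' hz') (hS hz) he]
    · intro hz
      have : φ z ∈ S.image φ := by rw [h]; exact mem_image_of_mem _ hz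
      obtain ⟨z', hz', he⟩ := mem_image.mp this
      rwa [← hinj (hS hz') (hS' hz) he]
  · intro T hT
    rw [mem_powerset] at hT
    refine ⟨U.filter fun z => φ z ∈ T, mem_powerset.mpr (filter_subset _ _), ?_⟩
    ext e
    rw [mem_image]
    constructor
    · rintro ⟨z, hz, rfl⟩
      exact (mem_filter.mp hz).2
    · intro he
      obtain ⟨z, hz, rfl⟩ := (hU' e).mp (hT he)
      exact ⟨z, mem_filter.mpr ⟨hz, he⟩, rfl⟩
  · intro S hS
    rw [mem_powerset] at hS
    unfold bw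
    rw [card_image_of_injOn (hinj.mono (by exact_mod_cast hS)), hcard]

section

variable {n : ℕ}

/-- the graph with edge set `E` -/
noncomputable def gr (E : Finset (Sym2 (Fin n))) : SimpleGraph (Fin n) :=
  SimpleGraph.fromEdgeSet (E : Set (Sym2 (Fin n)))

theorem gr_adj {E : Finset (Sym2 (Fin n))} {a b : Fin n} :
    (gr E).Adj a b ↔ s(a, b) ∈ E ∧ a ≠ b := by
  unfold gr
  rw [SimpleGraph.fromEdgeSet_adj]
  rfl

/-- the pairs between two sets -/
noncomputable def prs (A X : Finset (Fin n)) : Finset (Sym2 (Fin n)) :=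
  univ.filter fun e => ∃ a ∈ A, ∃ y ∈ X, e = s(a, y)

theorem mem_prs {A X : Finset (Fin n)} {a b : Fin n} :
    s(a, b) ∈ prs A X ↔ (a ∈ A ∧ b ∈ X) ∨ (b ∈ A ∧ a ∈ X) := by
  unfold prs
  simp only [mem_filter, mem_univ, true_and]
  constructor
  · rintro ⟨c, hc, y, hy, h⟩
    rcases Sym2.eq_iff.mp h with ⟨rfl, rfl⟩ | ⟨rfl, rfl⟩
    · exact Or.inl ⟨hc, hy⟩
    · exact Or.inr ⟨hc, hy⟩
  · rintro (⟨h1, h2⟩ | ⟨h1, h2⟩)
    · exact ⟨a, h1, b, h2, rfl⟩
    · exact ⟨b, h1, a, h2, Sym2.eq_swap⟩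

theorem agree_of {A X : Finset (Fin n)} {E E' S : Finset (Sym2 (Fin n))}
    (hE' : ∀ e, e ∈ E' ↔ (e ∈ E ∧ e ∉ prs A X) ∨ e ∈ S) (hS : ∀ e ∈ S, e ∈ prs A X) :
    Agree (gr E) (gr E') A X := by
  intro a b h1 h2
  have hn : s(a, b) ∉ prs A X := by
    rw [mem_prs]
    tauto
  rw [gr_adj, gr_adj, hE']
  have h3 : s(a, b) ∉ S := fun h => hn (hS _ h)
  tauto

variable (v w v' w' : Fin n) (c : ℕ)

/-- the set of pairs to be resampled -/
noncomputable def ZZ (E : Finset (Sym2 (Fin n))) : Finset (Sym2 (Fin n)) :=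
  prs (Ac (gr E) v w v' w' c) (Xf (gr E) v w v' w')

theorem disjAX {G : SimpleGraph (Fin n)} {a : Fin n} (ha : a ∈ Ac G v w v' w' c) :
    a ∉ Xf G v w v' w' :=
  disj_AX (mem_Af.mp (mem_Ac.mp ha).1).1

theorem ZZ_subset (E : Finset (Sym2 (Fin n))) : ZZ v w v' w' c E ⊆ pairs n := by
  intro e he
  rw [mem_pairs]
  unfold ZZ at he
  induction e using Sym2.ind with
  | _ a b =>
    rw [mem_prs] at he
    intro hd
    have hab : a = b := hd
    subst hab
    rcases he with ⟨h1, h2⟩ | ⟨h1, h2⟩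
    · exact disjAX v w v' w' c h1 h2
    · exact disjAX v w v' w' c h1 h2

theorem ZZ_eq {E E' S : Finset (Sym2 (Fin n))}
    (hE' : ∀ e, e ∈ E' ↔ (e ∈ E ∧ e ∉ ZZ v w v' w' c E) ∨ e ∈ S)
    (hS : ∀ e ∈ S, e ∈ ZZ v w v' w' c E) : ZZ v w v' w' c E' = ZZ v w v' w' c E := by
  have hA : Agree (gr E) (gr E') (Ac (gr E) v w v' w' c) (Xf (gr E) v w v' w') :=
    agree_of hE' hS
  unfold ZZ
  rw [Ac_eq hA, Xf_eq hA]

/-- The probability of a bad quadruple with large sets. -/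
theorem bad_prob {p : ℝ} (h0 : 0 ≤ p) (h1 : p ≤ 1) {m₀ N₀ η : ℝ} (hη : 0 ≤ η)
    (hist_bd : ∀ (A X : Finset (Fin n)) (h : ℕ → ℕ), m₀ ≤ A.card → N₀ ≤ X.card →
      Pr p (A ×ˢ X) (Ev A h) ≤ η) :
    GP n p (fun G => Bad G v w v' w' ∧ m₀ ≤ ((Ac G v w v' w' c).card : ℝ) ∧
      N₀ ≤ ((Xf G v w v' w').card : ℝ)) ≤ η := by
  rw [GP_eq]
  refine resample_le h0 h1 (pairs n) (ZZ v w v' w' c) (fun E _ => ZZ_subset v w v' w' c E)
    (fun E E' S _ hS hE' => ZZ_eq v w v' w' c hE' (fun e he => hS he)) (fun E _ F hF => ?_)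
  set G := gr E with hG
  set A := Ac G v w v' w' c with hAdef
  set X := Xf G v w v' w' with hXdef
  have hd : ∀ a ∈ A, a ∉ X := fun a ha => disjAX v w v' w' c ha
  by_cases hsize : m₀ ≤ (A.card : ℝ) ∧ N₀ ≤ (X.card : ℝ)
  · -- transport to the product
    set φ : Fin n × Fin n → Sym2 (Fin n) := fun z => s(z.1, z.2) with hφ
    have hU' : ∀ e, e ∈ ZZ v w v' w' c E ↔ ∃ z ∈ A ×ˢ X, φ z = e := by
      intro e
      induction e using Sym2.ind with
      | _ a b =>
        unfold ZZ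
        rw [mem_prs]
        constructor
        · rintro (⟨e1, e2⟩ | ⟨e1, e2⟩)
          · exact ⟨(a, b), mem_product.mpr ⟨e1, e2⟩, rfl⟩
          · exact ⟨(b, a), mem_product.mpr ⟨e1, e2⟩, Sym2.eq_swap⟩
        · rintro ⟨⟨a', b'⟩, hz, he⟩
          have hz' := mem_product.mp hz
          rcases Sym2.eq_iff.mp he with ⟨h3, h4⟩ | ⟨h3, h4⟩
          · left
            simp only at h3 h4
            rw [← h3, ← h4]
            exact hz'
          · right
            simp only at h3 h4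
            rw [← h3, ← h4]
            exact hz'
    have hinj : Set.InjOn φ (A ×ˢ X : Finset (Fin n × Fin n)) := by
      rintro ⟨a, y⟩ hz ⟨a', y'⟩ hz' he
      have hz1 := mem_product.mp hz
      have hz2 := mem_product.mp hz'
      rcases Sym2.eq_iff.mp he with ⟨h3, h4⟩ | ⟨h3, h4⟩
      · simp only at h3 h4
        rw [h3, h4]
      · exfalso
        simp only at h3 h4 hz1 hz2
        exact hd a hz1.1 (h3 ▸ hz2.2)
    unfold Pr
    obtain ⟨I, hI, hIeq⟩ := Ex_image p hU' hinj (fun S => ind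
      (Bad (SimpleGraph.fromEdgeSet ((F S : Finset (Sym2 (Fin n))) : Set (Sym2 (Fin n)))) v w v' w' ∧
        m₀ ≤ ((Ac (SimpleGraph.fromEdgeSet ((F S : Finset (Sym2 (Fin n))) :
          Set (Sym2 (Fin n)))) v w v' w' c).card : ℝ) ∧
        N₀ ≤ ((Xf (SimpleGraph.fromEdgeSet ((F S : Finset (Sym2 (Fin n))) :
          Set (Sym2 (Fin n)))) v w v' w').card : ℝ)))
    rw [hIeq]
    refine le_trans ?_ (hist_bd A X (fun j => hist G v' w' (c + j) -
      oth G v w v' w' c (c + j)) hsize.1 hsize.2)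
    refine Ex_mono h0 h1 (fun S hS => ind_mono fun hP => ?_)
    obtain ⟨hbad, _, _⟩ := hP
    set E' := F (I S) with hE'
    have hmem : ∀ e, e ∈ E' ↔ (e ∈ E ∧ e ∉ ZZ v w v' w' c E) ∨ e ∈ I S := hF (I S)
    have himg : ∀ e ∈ I S, e ∈ ZZ v w v' w' c E := by
      intro e he
      obtain ⟨z, hz, rfl⟩ := (hI S e).mp he
      exact (hU' _).mpr ⟨z, hS hz, rfl⟩
    have hAg : Agree G (gr E') A X := agree_of hmem himg
    have hkey : ∀ a ∈ A, ∀ y ∈ X, (s(a, y) ∈ E' ↔ (a, y) ∈ S) := by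
      intro a ha y hy
      rw [hmem]
      constructor
      · rintro (⟨_, h3⟩ | h3)
        · exact absurd ((hU' _).mpr ⟨(a, y), mem_product.mpr ⟨ha, hy⟩, rfl⟩) h3
        · obtain ⟨z, hz, he⟩ := (hI S _).mp h3
          have := hinj (hS hz) (mem_coe.mpr (mem_product.mpr ⟨ha, hy⟩))
            (show φ z = φ (a, y) from he)
          rwa [← this]
      · intro h3
        exact Or.inr ((hI S _).mpr ⟨(a, y), h3, rfl⟩)
    have hrs : ∀ a ∈ A, (X.filter fun y => (gr E').Adj a y).card = rs S a := by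
      intro a ha
      refine rs_bij S a _ (fun y => ?_)
      rw [mem_filter, gr_adj]
      constructor
      · rintro ⟨hy, h3, _⟩
        exact (hkey a ha y hy).mp h3
      · intro h3
        have h4 := (mem_product.mp (hS h3)).2
        exact ⟨h4, (hkey a ha y h4).mpr h3, fun h => hd a ha (h ▸ h4)⟩
    intro j
    have hh := hbad.2.2.2.2 (c + j)
    change hist (gr E') v w (c + j) = hist (gr E') v' w' (c + j) at hh
    rw [hist_v' hAg, hist_split hAg] at hh
    have e1 : (A.filter fun a => c + (X.filter fun y => (gr E').Adj a y).card = c + j) =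
        A.filter fun a => rs S a = j := by
      refine filter_congr fun a ha => ?_
      rw [hrs a ha]
      omega
    rw [e1] at hh
    exact Nat.eq_sub_of_add_eq' hh
  · -- the sizes do not change, so the event is empty
    unfold Pr
    refine le_trans (Ex_mono h0 h1 (g := fun _ => (0 : ℝ)) (fun S hS => ?_)) ?_
    · rw [ind_false]
      intro hP
      have hAg : Agree G (gr (F S)) A X := agree_of (hF S) (fun e he => hS he)
      obtain ⟨_, h3, h4⟩ := hP
      have h5 : Ac (gr (F S)) v w v' w' c = A := Ac_eq hAg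
      have h6 : Xf (gr (F S)) v w v' w' = X := Xf_eq hAg
      refine hsize ⟨?_, ?_⟩
      · rw [← h5]; exact h3
      · rw [← h6]; exact h4
    · rw [Ex_const]
      exact hη

end

end Pool.Agent.H82.Shot
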