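import Mathlib
import Pool.Agent.H82.Shot.FingerC

/-!
# Fingerprints of darts: sizes of the sets in typical graphs
-/

set_option autoImplicit false

open Finset Classical

namespace Pool.Agent.H82.Shot

open Pool.Agent.H90.Shot

variable {V : Type*} [Fintype V]

/-- the typical graphs of range (B): degrees in `[D/4, 6D]`, codegrees at most `κ` -/
def TyB (G : SimpleGraph V) (D κ : ℝ) : Prop :=
  (∀ v, D / 4 ≤ ((univ.filter fun z => G.Adj v z).card : ℝ) ∧
    ((univ.filter fun z => G.Adj v z).card : ℝ) ≤ 6 * D) ∧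
  ∀ u v, u ≠ v → ((univ.filter fun z => G.Adj u z ∧ G.Adj z v).card : ℝ) ≤ κ

theorem card_notOff_nbr {G : SimpleGraph V} {D κ : ℝ} (hT : TyB G D κ) {v u : V} (h : v ≠ u) :
    ((univ.filter fun z => G.Adj v z ∧ ¬ Off G u z).card : ℝ) ≤ 1 + κ := by
  have hsub : (univ.filter fun z => G.Adj v z ∧ ¬ Off G u z) ⊆
      insert u (univ.filter fun z => G.Adj v z ∧ G.Adj z u) := by
    intro z hz
    simp only [mem_filter, mem_univ, true_and] at hz
    rw [mem_insert, mem_filter]
    unfold Off at hz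
    by_cases hzu : z = u
    · exact Or.inl hzu
    · right
      refine ⟨mem_univ _, hz.1, ?_⟩
      by_contra hcon
      exact hz.2 ⟨hzu, fun h' => hcon h'.symm⟩
  have h1 := card_le_card hsub
  have h2 := card_insert_le u (univ.filter fun z => G.Adj v z ∧ G.Adj z u)
  have h3 := hT.2 v u h
  have h4 : ((univ.filter fun z => G.Adj v z ∧ ¬ Off G u z).card : ℝ) ≤
      ((univ.filter fun z => G.Adj v z ∧ G.Adj z u).card : ℝ) + 1 := by
    exact_mod_cast h1.trans h2
  linarith

theorem card_notOff {G : SimpleGraph V} {D κ : ℝ} (hT : TyB G D κ) (u : V) :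
    ((univ.filter fun z => ¬ Off G u z).card : ℝ) ≤ 1 + 6 * D := by
  have hsub : (univ.filter fun z => ¬ Off G u z) ⊆
      insert u (univ.filter fun z => G.Adj u z) := by
    intro z hz
    simp only [mem_filter, mem_univ, true_and] at hz
    rw [mem_insert, mem_filter]
    unfold Off at hz
    by_cases hzu : z = u
    · exact Or.inl hzu
    · right
      refine ⟨mem_univ _, ?_⟩
      by_contra hcon
      exact hz ⟨hzu, hcon⟩
  have h1 := card_le_card hsub
  have h2 := card_insert_le u (univ.filter fun z => G.Adj u z)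
  have h3 := (hT.1 u).2
  have h4 : ((univ.filter fun z => ¬ Off G u z).card : ℝ) ≤
      ((univ.filter fun z => G.Adj u z).card : ℝ) + 1 := by
    exact_mod_cast h1.trans h2
  linarith

theorem card_union3 {α : Type*} (A B C E : Finset α) :
    (A ∪ (B ∪ (C ∪ E))).card ≤ A.card + B.card + C.card + E.card := by
  have h1 := card_union_le A (B ∪ (C ∪ E))
  have h2 := card_union_le B (C ∪ E)
  have h3 := card_union_le C E
  omega

theorem mem_union3 {α : Type*} (A B C E : Finset α) (z : α) :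
    z ∈ A ∪ (B ∪ (C ∪ E)) ↔ z ∈ A ∨ z ∈ B ∨ z ∈ C ∨ z ∈ E := by
  rw [mem_union, mem_union, mem_union]

theorem Af_lb {G : SimpleGraph V} {D κ : ℝ} (hT : TyB G D κ) {v w v' w' : V} (h : G.Adj v w)
    (h1 : v ≠ v') (h2 : v ≠ w') :
    D / 4 - 3 * (1 + κ) ≤ ((Af G v w v' w').card : ℝ) := by
  have hsub : (univ.filter fun z => G.Adj v z) ⊆ Af G v w v' w' ∪
      ((univ.filter fun z => G.Adj v z ∧ ¬ Off G w z) ∪
      ((univ.filter fun z => G.Adj v z ∧ ¬ Off G v' z) ∪
      (univ.filter fun z => G.Adj v z ∧ ¬ Off G w' z))) := by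
    intro z hz
    simp only [mem_filter, mem_univ, true_and] at hz
    rw [mem_union3, mem_Af]
    simp only [mem_filter, mem_univ, true_and]
    tauto
  have e := (card_le_card hsub).trans (card_union3 _ _ _ _)
  have e' : ((univ.filter fun z => G.Adj v z).card : ℝ) ≤ (Af G v w v' w').card +
      (univ.filter fun z => G.Adj v z ∧ ¬ Off G w z).card +
      (univ.filter fun z => G.Adj v z ∧ ¬ Off G v' z).card +
      (univ.filter fun z => G.Adj v z ∧ ¬ Off G w' z).card := by
    exact_mod_cast e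
  have d := (hT.1 v).1
  have a1 := card_notOff_nbr hT h.ne
  have a2 := card_notOff_nbr hT h1
  have a3 := card_notOff_nbr hT h2
  linarith

theorem k0_ub {G : SimpleGraph V} {D κ : ℝ} (hT : TyB G D κ) {v w v' w' a : V}
    (ha : a ∈ Af G v w v' w') : (k0 G v w v' w' a : ℝ) ≤ 3 * (1 + κ) := by
  have h := mem_Af.mp ha
  have hsub : ((S2 G w).filter fun y => y ∉ Xf G v w v' w' ∧ G.Adj a y) ⊆ ∅ ∪
      ((univ.filter fun z => G.Adj a z ∧ ¬ Off G v z) ∪
      ((univ.filter fun z => G.Adj a z ∧ ¬ Off G v' z) ∪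
      (univ.filter fun z => G.Adj a z ∧ ¬ Off G w' z))) := by
    intro z hz
    rw [mem_filter, mem_Xf] at hz
    rw [mem_union3]
    simp only [mem_filter, mem_univ, true_and]
    tauto
  have e := (card_le_card hsub).trans (card_union3 _ _ _ _)
  have e' : (k0 G v w v' w' a : ℝ) ≤ 0 +
      (univ.filter fun z => G.Adj a z ∧ ¬ Off G v z).card +
      (univ.filter fun z => G.Adj a z ∧ ¬ Off G v' z).card +
      (univ.filter fun z => G.Adj a z ∧ ¬ Off G w' z).card := by
    unfold k0
    exact_mod_cast e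
  have a1 := card_notOff_nbr hT (v := a) (u := v) h.1.ne'
  have a2 := card_notOff_nbr hT (v := a) (u := v') h.2.2.1.1
  have a3 := card_notOff_nbr hT (v := a) (u := w') h.2.2.2.1
  linarith

theorem exists_popular {G : SimpleGraph V} {D κ : ℝ} (hT : TyB G D κ) (hκ : 0 ≤ κ)
    {v w v' w' : V} {m₀ : ℝ} (hm : (4 + 3 * κ) * m₀ ≤ ((Af G v w v' w').card : ℝ))
    (hm0 : 0 < m₀) :
    ∃ c : ℕ, (c : ℝ) ≤ 3 * (1 + κ) ∧ m₀ ≤ ((Ac G v w v' w' c).card : ℝ) := by
  by_contra hcon
  push Not at hcon
  set K : ℕ := ⌊3 * (1 + κ)⌋₊ with hK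
  have hKle : (K : ℝ) ≤ 3 * (1 + κ) := Nat.floor_le (by positivity)
  have h1 : (Af G v w v' w').card = ∑ c ∈ range (K + 1), (Ac G v w v' w' c).card := by
    unfold Ac
    refine card_eq_sum_card_fiberwise (fun a ha => ?_)
    have := k0_ub hT (mem_coe.mp ha)
    rw [coe_range, Set.mem_Iio, Nat.lt_succ_iff]
    exact Nat.le_floor this
  have h2 : ((Af G v w v' w').card : ℝ) < (K + 1) * m₀ := by
    rw [h1]
    push_cast
    have h3 : ∀ c ∈ range (K + 1), ((Ac G v w v' w' c).card : ℝ) < m₀ := by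
      intro c hc
      rw [mem_range, Nat.lt_succ_iff] at hc
      refine hcon c (le_trans ?_ hKle)
      exact_mod_cast hc
    have h4 := sum_lt_sum_of_nonempty (s := range (K + 1)) (by simp) h3
    rw [sum_const, card_range, nsmul_eq_mul] at h4
    push_cast at h4
    exact h4
  have h5 : ((K : ℝ) + 1) * m₀ ≤ (4 + 3 * κ) * m₀ :=
    mul_le_mul_of_nonneg_right (by linarith) hm0.le
  linarith

theorem S2_lb {G : SimpleGraph V} {D κ : ℝ} (hT : TyB G D κ) (w : V)
    (hD : 0 ≤ D / 4 - (1 + κ)) :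
    (D / 4) * (D / 4 - (1 + κ)) ≤ ((S2 G w).card : ℝ) * κ := by
  set s := univ.filter fun x => G.Adj w x with hs
  have hdc := sum_card_bipartiteAbove_eq_sum_card_bipartiteBelow (s := s) (t := S2 G w)
    (fun x y => G.Adj x y)
  have h1 : ∀ x ∈ s, D / 4 - (1 + κ) ≤
      (((S2 G w).bipartiteAbove (fun x y => G.Adj x y) x).card : ℝ) := by
    intro x hx
    rw [hs, mem_filter] at hx
    have hwx := hx.2
    have hsub : (univ.filter fun z => G.Adj x z) ⊆
        ((S2 G w).bipartiteAbove (fun x y => G.Adj x y) x) ∪ (∅ ∪ (∅ ∪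
        (univ.filter fun z => G.Adj x z ∧ ¬ Off G w z))) := by
      intro z hz
      simp only [mem_filter, mem_univ, true_and] at hz
      rw [mem_union3]
      simp only [mem_filter, mem_univ, true_and, mem_bipartiteAbove]
      by_cases ho : Off G w z
      · left
        exact ⟨mem_S2.mpr ⟨ho.1, ho.2, x, hwx, hz⟩, hz⟩
      · right; right; right
        exact ⟨hz, ho⟩
    have e := (card_le_card hsub).trans (card_union3 _ _ _ _)
    have e' : ((univ.filter fun z => G.Adj x z).card : ℝ) ≤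
        ((S2 G w).bipartiteAbove (fun x y => G.Adj x y) x).card + 0 + 0 +
        (univ.filter fun z => G.Adj x z ∧ ¬ Off G w z).card := by
      exact_mod_cast e
    have d := (hT.1 x).1
    have a1 := card_notOff_nbr hT (v := x) (u := w) hwx.ne'
    linarith
  have h2 : ∀ y ∈ S2 G w, ((s.bipartiteBelow (fun x y => G.Adj x y) y).card : ℝ) ≤ κ := by
    intro y hy
    have hy' := mem_S2.mp hy
    have e := hT.2 w y (fun h => hy'.1 h.symm)
    refine le_trans ?_ e
    refine Nat.cast_le.mpr (card_le_card ?_)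
    intro x hx
    rw [mem_bipartiteBelow, hs, mem_filter] at hx
    rw [mem_filter]
    exact ⟨mem_univ _, hx.1.2, hx.2⟩
  have h3 : (s.card : ℝ) * (D / 4 - (1 + κ)) ≤
      ∑ x ∈ s, (((S2 G w).bipartiteAbove (fun x y => G.Adj x y) x).card : ℝ) := by
    have := sum_le_sum h1
    rwa [sum_const, nsmul_eq_mul] at this
  have h4 : ∑ y ∈ S2 G w, ((s.bipartiteBelow (fun x y => G.Adj x y) y).card : ℝ) ≤
      ((S2 G w).card : ℝ) * κ := by
    have := sum_le_sum h2
    rwa [sum_const, nsmul_eq_mul] at this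
  have h5 : ∑ x ∈ s, (((S2 G w).bipartiteAbove (fun x y => G.Adj x y) x).card : ℝ) =
      ∑ y ∈ S2 G w, ((s.bipartiteBelow (fun x y => G.Adj x y) y).card : ℝ) := by
    exact_mod_cast hdc
  have h6 : D / 4 ≤ (s.card : ℝ) := (hT.1 w).1
  have h7 := mul_le_mul_of_nonneg_right h6 hD
  linarith

theorem Xf_lb {G : SimpleGraph V} {D κ : ℝ} (hT : TyB G D κ) (v w v' w' : V) :
    ((S2 G w).card : ℝ) - 3 * (1 + 6 * D) ≤ ((Xf G v w v' w').card : ℝ) := by
  have hsub : S2 G w ⊆ Xf G v w v' w' ∪
      ((univ.filter fun z => ¬ Off G v z) ∪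
      ((univ.filter fun z => ¬ Off G v' z) ∪
      (univ.filter fun z => ¬ Off G w' z))) := by
    intro z hz
    rw [mem_union3, mem_Xf]
    simp only [mem_filter, mem_univ, true_and]
    tauto
  have e := (card_le_card hsub).trans (card_union3 _ _ _ _)
  have e' : ((S2 G w).card : ℝ) ≤ (Xf G v w v' w').card +
      (univ.filter fun z => ¬ Off G v z).card +
      (univ.filter fun z => ¬ Off G v' z).card +
      (univ.filter fun z => ¬ Off G w' z).card := by
    exact_mod_cast e
  have a1 := card_notOff hT v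
  have a2 := card_notOff hT v'
  have a3 := card_notOff hT w'
  linarith

/-- In a typical graph the sets are large. -/
theorem sizes {G : SimpleGraph V} {D l : ℝ} (hT : TyB G D (60 * l)) (hl : 1 ≤ l)
    (hD : 100000 * l ≤ D) {v w v' w' : V} (h : G.Adj v w) (h1 : v ≠ v') (h2 : v ≠ w') :
    (∃ c : ℕ, (c : ℝ) ≤ 3 * (1 + 60 * l) ∧ D / (1472 * l) ≤ ((Ac G v w v' w' c).card : ℝ)) ∧
      D ^ 2 / (3840 * l) ≤ ((Xf G v w v' w').card : ℝ) := by
  have hl0 : 0 < l := by linarith
  have hD0 : 0 < D := by linarith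
  constructor
  · refine exists_popular hT (by positivity) ?_ (by positivity)
    have hA := Af_lb hT h h1 h2
    refine le_trans ?_ hA
    have h3 : (4 + 3 * (60 * l)) * (D / (1472 * l)) ≤ D / 8 := by
      rw [mul_div_assoc', div_le_div_iff₀ (by positivity) (by norm_num)]
      nlinarith
    linarith
  · have hS := S2_lb hT w (by linarith)
    have hX := Xf_lb hT v w v' w'
    have h4 : D ^ 2 / (1920 * l) ≤ ((S2 G w).card : ℝ) := by
      rw [div_le_iff₀ (by positivity)]
      have h5 : D / 8 ≤ D / 4 - (1 + 60 * l) := by linarith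
      have h6 := mul_le_mul_of_nonneg_left h5 (show 0 ≤ D / 4 by positivity)
      nlinarith
    have h7 : 3 * (1 + 6 * D) ≤ D ^ 2 / (3840 * l) := by
      rw [le_div_iff₀ (by positivity)]
      nlinarith
    have h8 : D ^ 2 / (1920 * l) = D ^ 2 / (3840 * l) + D ^ 2 / (3840 * l) := by
      field_simp
      ring
    linarith

end Pool.Agent.H82.Shot
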