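import Mathlib
import Pool.Agent.H82.Shot.FingerD

/-!
# Range (B)
-/

set_option autoImplicit false

open Finset Classical Filter

namespace Pool.Agent.H82.Shot

open Pool.Agent.H90.Shot

theorem ev_big : ∀ᶠ n : ℕ in atTop, 100000 * Real.log n ≤ (n : ℝ) ^ (3332 / 10000 : ℝ) := by
  filter_upwards [ev_log, ev_const 100000, eventually_ge_atTop 2] with n h1 h2 h3
  have hx : (1 : ℝ) ≤ n := by exact_mod_cast (show 1 ≤ n by omega)
  have hx0 : (0 : ℝ) < n := by linarith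
  have hl : 0 ≤ Real.log n := Real.log_nonneg hx
  have h4 : 100000 * Real.log n ≤ (n : ℝ) ^ (1 / 100000 : ℝ) * (n : ℝ) ^ (1 / 100000 : ℝ) :=
    mul_le_mul h2 h1 hl (Real.rpow_nonneg hx0.le _)
  refine h4.trans ?_
  rw [← Real.rpow_add hx0]
  exact Real.rpow_le_rpow_of_exponent_le hx (by norm_num)

theorem ev_final (η : ℝ) (hη : 0 < η) : ∀ᶠ n : ℕ in atTop,
    ((n : ℝ) ^ 4 * (n + 1)) * (n : ℝ) ^ (-7 : ℝ) ≤ η := by
  filter_upwards [ev_ge (2 / η), eventually_ge_atTop 2] with n h1 h2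
  have hx : (2 : ℝ) ≤ n := by exact_mod_cast h2
  have hx0 : (0 : ℝ) < n := by linarith
  have h3 : (n : ℝ) ^ (-7 : ℝ) = 1 / (n : ℝ) ^ 7 := by
    rw [Real.rpow_neg hx0.le, one_div]
    norm_cast
  rw [h3, mul_one_div, div_le_iff₀ (by positivity)]
  rw [div_le_iff₀ hη] at h1
  have h4 : (n : ℝ) + 1 ≤ n * n := by nlinarith
  have h5 : (n : ℝ) ^ 4 * (n + 1) ≤ n ^ 4 * (n * n) :=
    mul_le_mul_of_nonneg_left h4 (by positivity)
  have h6 : (n : ℝ) ^ 4 * (n * n) * 1 ≤ n ^ 4 * (n * n) * (η * n) := by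
    refine mul_le_mul_of_nonneg_left ?_ (by positivity)
    linarith
  calc (n : ℝ) ^ 4 * (n + 1) ≤ n ^ 4 * (n * n) := h5
    _ = n ^ 4 * (n * n) * 1 := by ring
    _ ≤ n ^ 4 * (n * n) * (η * n) := h6
    _ = η * n ^ 7 := by ring

/-- Range (B), from the typical degrees and codegrees. -/
theorem rangeB_of
    (typB : ∀ η : ℝ, 0 < η → ∀ᶠ n : ℕ in atTop, ∀ p : ℝ,
      (n : ℝ) ^ (-(2 / 3 : ℝ) - 1 / 10000) ≤ p → n * p ^ 2 ≤ 3 * Real.log n →
      GP n p (fun G => ¬ ((∀ v, n * p / 4 ≤ ((univ.filter fun z => G.Adj v z).card : ℝ) ∧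
        ((univ.filter fun z => G.Adj v z).card : ℝ) ≤ 6 * n * p) ∧
        ∀ u v, u ≠ v → ((univ.filter fun z => G.Adj u z ∧ G.Adj z v).card : ℝ) ≤
          60 * Real.log n)) ≤ η) :
    ∃ δ : ℝ, 0 < δ ∧ ∀ η : ℝ, 0 < η → ∀ᶠ n : ℕ in atTop, ∀ p : ℝ,
      (n : ℝ) ^ (-(2 / 3 : ℝ) - δ) ≤ p → n * p ^ 2 ≤ 3 * Real.log n →
      GP n p (fun G => ∃ H, Nonempty (Views G H) ∧ H ≠ G) ≤ η := by
  refine ⟨1 / 10000, by norm_num, fun η hη => ?_⟩
  filter_upwards [typB (η / 2) (by linarith), hist_asym 1472 3840 (by norm_num) (by norm_num),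
    ev_big, ev_final (η / 2) (by linarith), ev_ge (Real.exp 1), ev_log, ev_const 12,
    eventually_ge_atTop 2] with n htyp hhist hbig hfin hexp hlog h12 hn2 p hp1 hp2
  have hx2 : (2 : ℝ) ≤ n := by exact_mod_cast hn2
  have hx0 : (0 : ℝ) < n := by linarith
  have hx1 : (1 : ℝ) ≤ n := by linarith
  have hl : 1 ≤ Real.log n := by
    rw [Real.le_log_iff_exp_le hx0]
    exact hexp
  have hp0 : 0 < p := lt_of_lt_of_le (Real.rpow_pos_of_pos hx0 _) hp1
  have hp12 : p ≤ 1 := by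
    by_contra hcon
    push Not at hcon
    have e1 : (n : ℝ) * 1 < n * p ^ 2 := by
      refine mul_lt_mul_of_pos_left ?_ hx0
      nlinarith
    set u : ℝ := (n : ℝ) ^ (1 / 100000 : ℝ) with hu
    have e2 : (n : ℝ) < 3 * u := by linarith
    have e3 : u * u ≤ n := by
      rw [hu, ← Real.rpow_add hx0]
      calc (n : ℝ) ^ (1 / 100000 + 1 / 100000 : ℝ) ≤ (n : ℝ) ^ (1 : ℝ) :=
            Real.rpow_le_rpow_of_exponent_le hx1 (by norm_num)
        _ = n := Real.rpow_one _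
    nlinarith
  have hD : 100000 * Real.log n ≤ n * p := by
    refine hbig.trans ?_
    calc (n : ℝ) ^ (3332 / 10000 : ℝ) ≤ (n : ℝ) ^ ((1 : ℝ) + (-(2 / 3 : ℝ) - 1 / 10000)) :=
          Real.rpow_le_rpow_of_exponent_le hx1 (by norm_num)
      _ = n * (n : ℝ) ^ (-(2 / 3 : ℝ) - 1 / 10000) := by rw [Real.rpow_add hx0, Real.rpow_one]
      _ ≤ n * p := mul_le_mul_of_nonneg_left hp1 hx0.le
  -- the union bound
  set I : Finset (((Fin n × Fin n) × (Fin n × Fin n)) × ℕ) := univ ×ˢ range (n + 1) with hI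
  set Q : (((Fin n × Fin n) × (Fin n × Fin n)) × ℕ) → SimpleGraph (Fin n) → Prop := fun i G =>
    Bad G i.1.1.1 i.1.1.2 i.1.2.1 i.1.2.2 ∧
      n * p / (1472 * Real.log n) ≤ ((Ac G i.1.1.1 i.1.1.2 i.1.2.1 i.1.2.2 i.2).card : ℝ) ∧
      (n * p) ^ 2 / (3840 * Real.log n) ≤ ((Xf G i.1.1.1 i.1.1.2 i.1.2.1 i.1.2.2).card : ℝ) with hQ
  have hmain : GP n p (fun G => ∃ i ∈ I, Q i G) ≤ η / 2 := by
    refine (GP_exists_le hp0.le hp12 I Q).trans ?_
    have h1 : ∀ i ∈ I, GP n p (Q i) ≤ (n : ℝ) ^ (-7 : ℝ) := by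
      intro i _
      exact bad_prob _ _ _ _ _ hp0.le hp12 (Real.rpow_nonneg hx0.le _)
        (fun A X h hA hX => hhist p hp1 hp2 A X h hA hX)
    refine (sum_le_sum h1).trans ?_
    rw [sum_const, nsmul_eq_mul]
    refine le_trans (le_of_eq ?_) hfin
    congr 1
    rw [hI, card_product, card_range, card_univ, Fintype.card_prod, Fintype.card_prod,
      Fintype.card_fin]
    push_cast
    ring
  have hcover : ∀ G : SimpleGraph (Fin n), (∃ H, Nonempty (Views G H) ∧ H ≠ G) →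
      (¬ ((∀ v, n * p / 4 ≤ ((univ.filter fun z => G.Adj v z).card : ℝ) ∧
        ((univ.filter fun z => G.Adj v z).card : ℝ) ≤ 6 * n * p) ∧
        ∀ u v, u ≠ v → ((univ.filter fun z => G.Adj u z ∧ G.Adj z v).card : ℝ) ≤
          60 * Real.log n)) ∨ (∃ i ∈ I, Q i G) := by
    rintro G ⟨H, ⟨W⟩, hne⟩
    by_cases hT : ((∀ v, n * p / 4 ≤ ((univ.filter fun z => G.Adj v z).card : ℝ) ∧
        ((univ.filter fun z => G.Adj v z).card : ℝ) ≤ 6 * n * p) ∧
        ∀ u v, u ≠ v → ((univ.filter fun z => G.Adj u z ∧ G.Adj z v).card : ℝ) ≤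
          60 * Real.log n)
    · right
      have hTy : TyB G (n * p) (60 * Real.log n) := by
        refine ⟨fun v => ⟨(hT.1 v).1, ?_⟩, hT.2⟩
        have := (hT.1 v).2
        linarith
      have hex : ∃ v w v' w', Bad G v w v' w' := by
        by_contra hcon
        push Not at hcon
        exact hne (eq_of_no_bad W hcon)
      obtain ⟨v, w, v', w', hb⟩ := hex
      obtain ⟨⟨c, hc, hA⟩, hX⟩ := sizes hTy hl hD hb.1 hb.2.2.1 hb.2.2.2.1
      refine ⟨((⟨v, w⟩, ⟨v', w'⟩), c), ?_, hb, hA, hX⟩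
      rw [hI, mem_product, mem_range]
      refine ⟨mem_univ _, ?_⟩
      have hcn : (c : ℝ) ≤ n := by
        have : (n : ℝ) * p ≤ n * 1 := mul_le_mul_of_nonneg_left hp12 hx0.le
        linarith
      have : c ≤ n := by exact_mod_cast hcn
      simp only
      omega
    · left
      exact hT
  refine (GP_mono hp0.le hp12 hcover).trans ((GP_or_le hp0.le hp12 _ _).trans ?_)
  have := htyp p hp1 hp2
  linarith

end Pool.Agent.H82.Shot
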