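import Mathlib
import Pool.Agent.H82.Shot.RangeB
import Pool.Agent.H49.Shot.TypB

/-!
# Range (B), final form
-/

set_option autoImplicit false

open Finset Classical Filter

namespace Pool.Agent.H82.Shot

open Pool.Agent.H90.Shot

theorem rangeB : ∃ δ : ℝ, 0 < δ ∧ ∀ η : ℝ, 0 < η → ∀ᶠ n : ℕ in atTop, ∀ p : ℝ,
    (n : ℝ) ^ (-(2 / 3 : ℝ) - δ) ≤ p → n * p ^ 2 ≤ 3 * Real.log n →
    GP n p (fun G => ∃ H, Nonempty (Views G H) ∧ H ≠ G) ≤ η :=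
  rangeB_of (fun η hη => Pool.Agent.H49.Shot.typB η hη)

end Pool.Agent.H82.Shot
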