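import Mathlib
import Pool.Agent.H82.Shot.RangeBFinal
import Pool.Agent.H49.Shot.Assembly

/-!
# Final assembly of `S19665` with range (C) as a hypothesis
-/

set_option autoImplicit false

open Finset Classical Filter

namespace Pool.Agent.H82.Shot

open Pool.Agent.H90.Shot

theorem rangeB' : ∃ δ : ℝ, 0 < δ ∧ ∀ η : ℝ, 0 < η → ∀ᶠ n : ℕ in atTop, ∀ p : ℝ,
    (n : ℝ) ^ (-2 / 3 - δ) ≤ p → n * p ^ 2 ≤ 3 * Real.log n →
    GP n p (fun G => ∃ H, Nonempty (Views G H) ∧ H ≠ G) ≤ η := by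
  obtain ⟨δ, hδ, h⟩ := rangeB
  refine ⟨δ, hδ, fun η hη => ?_⟩
  filter_upwards [h η hη] with n hn p h1 h2
  refine hn p ?_ h2
  have e : (-(2 / 3 : ℝ) - δ) = -2 / 3 - δ := by ring
  rw [e]
  exact h1

/-- The frozen statement from range (C). -/
theorem frozen_of_rangeC
    (hC : ∀ ε δ : ℝ, 0 < ε → 0 < δ → ∀ η : ℝ, 0 < η → ∀ᶠ n : ℕ in atTop, ∀ p : ℝ,
      (n : ℝ) ^ (-3 / 4 + ε) ≤ p → p ≤ (n : ℝ) ^ (-2 / 3 - δ) →
      GP n p (fun G => ∃ H, Nonempty (Views G H) ∧ H ≠ G) ≤ η) :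
  ∀ ε : ℝ, 0 < ε → ∀ p : ℕ → ℝ,
    (∀ᶠ n : ℕ in Filter.atTop,
      (n : ℝ) ^ (-(3/4 : ℝ) + ε) ≤ p n ∧ p n ≤ (n : ℝ) ^ (-ε)) →
    Filter.Tendsto
      (fun n : ℕ => ∑ G : SimpleGraph (Fin n),
        if (∀ H : SimpleGraph (Fin n),
              (∃ σ : Fin n ≃ Fin n, ∀ v : Fin n,
                ∃ f : Fin n → Fin n, f v = σ v ∧
                  Set.BijOn f {w | G.edist v w ≤ 2} {w | H.edist (σ v) w ≤ 2} ∧
                  ∀ a ∈ {w | G.edist v w ≤ 2}, ∀ b ∈ {w | G.edist v w ≤ 2},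
                    (G.Adj a b ↔ H.Adj (f a) (f b))) →
              Nonempty (G ≃g H))
        then p n ^ G.edgeFinset.card * (1 - p n) ^ (n.choose 2 - G.edgeFinset.card)
        else 0)
      Filter.atTop (nhds 1) := by
  intro ε hε p hp
  have h := Pool.Agent.H49.Shot.main_of_ranges rangeB' hC ε hε p hp
  refine h.congr (fun n => ?_)
  exact (Pool.Agent.H49.Shot.frozen_sum n (p n)).symm

end Pool.Agent.H82.Shot
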